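import Pool.Agent.U400.PN.Rank

set_option autoImplicit false

/-!
# The rank of a Lie algebra of matrices with a quotient `sl_2 ^ e`: induction
-/

open Module LieModule

attribute [local instance 100] LieRing.ofAssociativeRing

noncomputable section

namespace Pool.Agent.U400.PN

variable {L T : Type} [LieRing L] [LieAlgebra ℂ L] [FiniteDimensional ℂ L] [LieRing T]
  [LieAlgebra ℂ T] {ι : Type}

omit [FiniteDimensional ℂ L] in
theorem sub_pow {V : Type} [AddCommGroup V] [Module ℂ V] [LieRingModule L V] [LieModule ℂ L V]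
    (N : LieSubmodule ℂ L V) (y : L) (m : ℕ) (w : N) :
    (((toEnd ℂ L N y) ^ m) w : V) = ((toEnd ℂ L V y) ^ m) w := by
  induction m with
  | zero => rfl
  | succ m ih =>
    rw [pow_succ', pow_succ', Module.End.mul_apply, Module.End.mul_apply, ← ih]
    rfl

omit [FiniteDimensional ℂ L] in
theorem quo_pow {V : Type} [AddCommGroup V] [Module ℂ V] [LieRingModule L V] [LieModule ℂ L V]
    (N : LieSubmodule ℂ L V) (y : L) (m : ℕ) (v : V) :
    ((toEnd ℂ L (V ⧸ N) y) ^ m) (LieSubmodule.Quotient.mk v) =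
      (LieSubmodule.Quotient.mk (((toEnd ℂ L V y) ^ m) v) : V ⧸ N) := by
  induction m with
  | zero => rfl
  | succ m ih =>
    rw [pow_succ', pow_succ', Module.End.mul_apply, Module.End.mul_apply, ih]
    rfl

variable (φ : L →ₗ⁅ℂ⁆ T) [Fintype ι] [DecidableEq ι]

open Classical in
/-- Induction on the dimension. -/
theorem bound {h e f : ι → T} (hF : Fam h e f) {x y z : ι → L} (hx : ∀ i, φ (x i) = h i)
    (hy : ∀ i, φ (y i) = e i) (hz : ∀ i, φ (z i) = f i) (n : ℕ) :
    ∀ (V : Type) [AddCommGroup V] [Module ℂ V] [LieRingModule L V] [LieModule ℂ L V]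
      [FiniteDimensional ℂ V], finrank ℂ V = n →
      (∀ y, φ y = 0 → IsNilpotent (toEnd ℂ L V y)) →
      2 * (Finset.univ.filter fun i => ¬ IsNilpotent (toEnd ℂ L V (x i))).card ≤ n := by
  induction n using Nat.strong_induction_on with
  | _ n ih =>
  intro V _ _ _ _ _ hn hK
  by_cases hnt : Nontrivial V
  · by_cases hirr : ∀ N : LieSubmodule ℂ L V, N = ⊥ ∨ N = ⊤
    · rw [← hn]
      exact irr_bound hirr hK hF hx hy hz
    · push Not at hirr
      obtain ⟨N, hN1, hN2⟩ := hirr
      have hsum : finrank ℂ (V ⧸ N) + finrank ℂ N = finrank ℂ V :=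
        Submodule.finrank_quotient_add_finrank N.toSubmodule
      have hpos : 0 < finrank ℂ N := by
        rw [Nat.pos_iff_ne_zero]
        intro h0
        refine hN1 ?_
        have h1 : N.toSubmodule = ⊥ := Submodule.finrank_eq_zero.1 h0
        exact (LieSubmodule.toSubmodule_eq_bot N).1 h1
      have hlt : finrank ℂ N < finrank ℂ V := by
        refine Submodule.finrank_lt (s := N.toSubmodule) fun h1 => hN2 ?_
        exact (LieSubmodule.toSubmodule_eq_top N).1 h1
      have h1 := ih (finrank ℂ N) (by omega) N rfl fun y hy0 => by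
        obtain ⟨m, hm⟩ := hK y hy0
        refine ⟨m, LinearMap.ext fun w => Subtype.ext ?_⟩
        rw [sub_pow, hm]
        rfl
      have h2 := ih (finrank ℂ (V ⧸ N)) (by omega) (V ⧸ N) rfl fun y hy0 => by
        obtain ⟨m, hm⟩ := hK y hy0
        refine ⟨m, LinearMap.ext fun w => ?_⟩
        obtain ⟨v, rfl⟩ := LieSubmodule.Quotient.surjective_mk' N w
        change ((toEnd ℂ L (V ⧸ N) y) ^ m) (LieSubmodule.Quotient.mk v) = 0
        rw [quo_pow, hm]
        rfl
      have h3 : (Finset.univ.filter fun i => ¬ IsNilpotent (toEnd ℂ L V (x i))) ⊆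
          (Finset.univ.filter fun i => ¬ IsNilpotent (toEnd ℂ L N (x i))) ∪
          (Finset.univ.filter fun i => ¬ IsNilpotent (toEnd ℂ L (V ⧸ N) (x i))) := by
        intro i hi
        rw [Finset.mem_union, Finset.mem_filter, Finset.mem_filter]
        rw [Finset.mem_filter] at hi
        by_contra hcon
        push Not at hcon
        obtain ⟨a, ha⟩ := hcon.1 (Finset.mem_univ i)
        obtain ⟨b, hb⟩ := hcon.2 (Finset.mem_univ i)
        refine hi.2 ⟨a + b, LinearMap.ext fun v => ?_⟩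
        have h4 : ((toEnd ℂ L V (x i)) ^ b) v ∈ N := by
          have h5 := quo_pow N (x i) b v
          rw [hb] at h5
          exact (LieSubmodule.Quotient.mk_eq_zero N).1 h5.symm
        have h5 := sub_pow N (x i) a ⟨_, h4⟩
        rw [ha] at h5
        rw [pow_add, Module.End.mul_apply]
        exact h5.symm
      have h4 := (Finset.card_le_card h3).trans (Finset.card_union_le _ _)
      omega
  · have hs : Subsingleton V := not_nontrivial_iff_subsingleton.1 hnt
    have h1 : (Finset.univ.filter fun i => ¬ IsNilpotent (toEnd ℂ L V (x i))) = ∅ := by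
      refine Finset.filter_eq_empty_iff.2 fun i _ => ?_
      rw [not_not]
      exact ⟨1, LinearMap.ext fun v => Subsingleton.elim _ _⟩
    rw [h1, Finset.card_empty]
    omega

/-- The kernel consists of nilpotent endomorphisms if `L` is minimal. -/
theorem nil_of_min {V : Type} [AddCommGroup V] [Module ℂ V] [LieRingModule L V]
    [LieModule ℂ L V] [FiniteDimensional ℂ V] (hs : Function.Surjective φ)
    (hmin : ∀ L' : LieSubalgebra ℂ L, (∀ t, ∃ x ∈ L', φ x = t) → L' = ⊤)
    (hperf : Submodule.span ℂ {t : T | ∃ a b : T, t = ⁅a, b⁆} = ⊤) (y : L) (hy : φ y = 0) :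
    IsNilpotent (toEnd ℂ L V y) := by
  have hlie : ∀ u : L, φ ⁅y, u⁆ = 0 := fun u => by rw [LieHom.map_lie, hy, zero_lie]
  have heng : LieSubalgebra.engel ℂ y = ⊤ := by
    refine hmin _ fun t => ?_
    obtain ⟨u, rfl⟩ := hs t
    obtain ⟨m, hm1, hm2⟩ := ((LinearMap.eventually_isCompl_ker_pow_range_pow
      (LieAlgebra.ad ℂ L y)).and (Filter.eventually_ge_atTop 1)).exists
    have h1 : u ∈ LinearMap.ker ((LieAlgebra.ad ℂ L y) ^ m) ⊔
        LinearMap.range ((LieAlgebra.ad ℂ L y) ^ m) := by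
      rw [hm1.sup_eq_top]
      trivial
    obtain ⟨a, ha, b, ⟨c, hc⟩, hab⟩ := Submodule.mem_sup.1 h1
    refine ⟨a, (LieSubalgebra.mem_engel_iff ℂ y a).2 ⟨m, ha⟩, ?_⟩
    obtain ⟨m', rfl⟩ := Nat.exists_eq_add_of_le' hm2
    rw [← hab, map_add, ← hc, pow_succ', Module.End.mul_apply, LieAlgebra.ad_apply, hlie,
      add_zero]
  have hz : ∀ u : L, u ∈ (toEnd ℂ L L y).maxGenEigenspace 0 := by
    intro u
    have h1 : u ∈ LieSubalgebra.engel ℂ y := by
      rw [heng]
      trivial
    exact h1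
  have hE : ∀ β : ℂ, β ≠ 0 → (toEnd ℂ L V y).maxGenEigenspace β = ⊥ := by
    intro β hβ
    let N : LieSubmodule ℂ L V :=
      { (toEnd ℂ L V y).maxGenEigenspace β with
        lie_mem := fun {u w} hw => by
          have h1 := lie_mem_maxGenEigenspace_toEnd (hz u) hw
          rwa [zero_add] at h1 }
    have hN : N.toSubmodule = (toEnd ℂ L V y).maxGenEigenspace β := rfl
    let τ : L →ₗ[ℂ] ℂ := (LinearMap.trace ℂ N).comp (toEnd ℂ L N : L →ₗ[ℂ] Module.End ℂ N)
    have hτ : ∀ a b : L, τ ⁅a, b⁆ = 0 := by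
      intro a b
      change LinearMap.trace ℂ N (toEnd ℂ L N ⁅a, b⁆) = 0
      rw [LieHom.map_lie, Ring.lie_def, map_sub, LinearMap.trace_mul_comm, sub_self]
    let L' : LieSubalgebra ℂ L :=
      { LinearMap.ker τ with lie_mem' := fun {a b} _ _ => hτ a b }
    have hL' : L' = ⊤ := by
      refine hmin L' fun t => ?_
      have ht : t ∈ Submodule.span ℂ {t : T | ∃ a b : T, t = ⁅a, b⁆} := by
        rw [hperf]
        trivial
      induction ht using Submodule.span_induction with
      | mem t ht =>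
        obtain ⟨a, b, rfl⟩ := ht
        obtain ⟨a, rfl⟩ := hs a
        obtain ⟨b, rfl⟩ := hs b
        exact ⟨⁅a, b⁆, hτ a b, LieHom.map_lie _ _ _⟩
      | zero => exact ⟨0, L'.zero_mem, map_zero φ⟩
      | add a b _ _ ha hb =>
        obtain ⟨a', h1, rfl⟩ := ha
        obtain ⟨b', h2, rfl⟩ := hb
        exact ⟨a' + b', L'.add_mem h1 h2, map_add φ _ _⟩
      | smul c a _ ha =>
        obtain ⟨a', h1, rfl⟩ := ha
        exact ⟨c • a', L'.smul_mem c h1, map_smul φ _ _⟩
    have h1 : τ y = 0 := by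
      have h2 : y ∈ L' := by
        rw [hL']
        trivial
      exact h2
    have hnil : IsNilpotent (toEnd ℂ L N y - algebraMap ℂ (Module.End ℂ N) β) := by
      have h2 := Module.End.isNilpotent_restrict_maxGenEigenspace_sub_algebraMap
        (toEnd ℂ L V y) β
      exact h2
    have h2 : LinearMap.trace ℂ N (toEnd ℂ L N y - algebraMap ℂ (Module.End ℂ N) β) = 0 :=
      (LinearMap.isNilpotent_trace_of_isNilpotent hnil).eq_zero
    rw [map_sub, Module.algebraMap_end_eq_smul_id, map_smul, LinearMap.trace_id] at h2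
    have h3 : LinearMap.trace ℂ N (toEnd ℂ L N y) = 0 := h1
    rw [h3, zero_sub, neg_eq_zero, smul_eq_mul, mul_eq_zero] at h2
    have h4 : finrank ℂ N = 0 := by exact_mod_cast h2.resolve_left hβ
    rw [← hN]
    exact Submodule.finrank_eq_zero.1 h4
  have htop : (toEnd ℂ L V y).maxGenEigenspace 0 = ⊤ := by
    rw [eq_top_iff, ← Module.End.iSup_maxGenEigenspace_eq_top (toEnd ℂ L V y)]
    refine iSup_le fun β => ?_
    by_cases hβ : β = 0
    · rw [hβ]
    · rw [hE β hβ]
      exact bot_le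
  refine ⟨finrank ℂ V, LinearMap.ext fun v => ?_⟩
  have h1 : v ∈ (toEnd ℂ L V y).maxGenEigenspace 0 := by
    rw [htop]
    trivial
  rw [Module.End.maxGenEigenspace_eq_genEigenspace_finrank, Module.End.mem_genEigenspace_nat,
    zero_smul, sub_zero] at h1
  exact h1

/-- **The rank.** -/
theorem rank_bound {V : Type} [AddCommGroup V] [Module ℂ V] [LieRingModule L V]
    [LieModule ℂ L V] [FiniteDimensional ℂ V] (hs : Function.Surjective φ)
    {h e f : ι → T} (hF : Fam h e f) (hinj : ∀ a : L, toEnd ℂ L V a = 0 → φ a = 0) :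
    2 * Fintype.card ι ≤ finrank ℂ V := by
  classical
  have hex : ∃ n, ∃ L' : LieSubalgebra ℂ L, (∀ t, ∃ x ∈ L', φ x = t) ∧ finrank ℂ L' = n :=
    ⟨_, ⊤, fun t => by
      obtain ⟨u, hu⟩ := hs t
      exact ⟨u, trivial, hu⟩, rfl⟩
  obtain ⟨L', hL', hn⟩ := Nat.find_spec hex
  let φ' : L' →ₗ⁅ℂ⁆ T := φ.comp L'.incl
  have hs' : Function.Surjective φ' := fun t => by
    obtain ⟨u, hu, h1⟩ := hL' t
    exact ⟨⟨u, hu⟩, h1⟩
  have hmin : ∀ L'' : LieSubalgebra ℂ L', (∀ t, ∃ x ∈ L'', φ' x = t) → L'' = ⊤ := by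
    intro L'' h1
    by_contra hne
    have h2 : finrank ℂ L'' < finrank ℂ L' := by
      refine Submodule.finrank_lt (s := L''.toSubmodule) fun h3 => hne ?_
      exact (LieSubalgebra.toSubmodule_eq_top L'').1 h3
    rw [hn] at h2
    refine Nat.find_min hex h2 ⟨L''.map L'.incl, fun t => ?_, ?_⟩
    · obtain ⟨u, hu, h3⟩ := h1 t
      exact ⟨u, ⟨u, hu, rfl⟩, h3⟩
    · exact (Submodule.equivMapOfInjective (L'.toSubmodule.subtype) Subtype.val_injective
        L''.toSubmodule).finrank_eq.symm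
  have hnil := fun y hy => nil_of_min (V := V) φ' hs' hmin hF.perf y hy
  choose x hx using fun i => hs' (h i)
  choose y hy using fun i => hs' (e i)
  choose z hz using fun i => hs' (f i)
  have h1 := bound φ' hF hx hy hz (finrank ℂ V) V rfl hnil
  have h2 : (Finset.univ.filter fun i => ¬ IsNilpotent (toEnd ℂ L' V (x i))) = Finset.univ := by
    refine Finset.filter_true_of_mem fun i _ hnl => ?_
    have h3 : IsNilpotent (LieAlgebra.ad ℂ (Module.End ℂ V) (toEnd ℂ L' V (x i))) :=
      LieAlgebra.ad_nilpotent_of_nilpotent hnl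
    obtain ⟨m, hm⟩ := h3
    have h4 : ∀ (k : ℕ) (a : L'), toEnd ℂ L' V (((LieAlgebra.ad ℂ L' (x i)) ^ k) a) =
        ((LieAlgebra.ad ℂ (Module.End ℂ V) (toEnd ℂ L' V (x i))) ^ k) (toEnd ℂ L' V a) := by
      intro k a
      induction k with
      | zero => rfl
      | succ k ih =>
        rw [pow_succ', pow_succ', Module.End.mul_apply, Module.End.mul_apply, ← ih,
          LieAlgebra.ad_apply, LieAlgebra.ad_apply, LieHom.map_lie]
    have h5 : φ' (((LieAlgebra.ad ℂ L' (x i)) ^ m) (y i)) = 0 := by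
      have h6 := h4 m (y i)
      rw [hm, LinearMap.zero_apply] at h6
      exact hinj _ h6
    have h6 : ∀ k : ℕ, φ' (((LieAlgebra.ad ℂ L' (x i)) ^ k) (y i)) = (2 : ℂ) ^ k • e i := by
      intro k
      induction k with
      | zero => rw [pow_zero, pow_zero, one_smul, Module.End.one_apply, hy]
      | succ k ih =>
        rw [pow_succ', Module.End.mul_apply, LieAlgebra.ad_apply, LieHom.map_lie, ih, hx,
          lie_smul, hF.he, pow_succ, mul_smul, two_nsmul, two_smul]
    have h7 := h6 m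
    rw [h5] at h7
    rcases smul_eq_zero.1 h7.symm with h8 | h8
    · exact absurd h8 (pow_ne_zero _ two_ne_zero)
    · exact hF.ne i h8
  rw [h2, Finset.card_univ] at h1
  exact h1

end Pool.Agent.U400.PN
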