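import Pool.Agent.U400.PN.Core
import Pool.Agent.U400.PN.RankB

set_option autoImplicit false
set_option linter.unusedSectionVars false

/-!
# The number of colours is at most half of the rank of the other motive
-/

open Module Function TensorProduct Matrix LieModule

attribute [local instance 100] LieRing.ofAssociativeRing

noncomputable section

namespace Pool.Agent.U400.PN

open Pool.Agent.Y102 Pool.Agent.W516.DR Pool.Agent.H204R3.GP Pool.Agent.W516.KC
  Pool.Agent.H204R3.SP Pool.Agent.R917 Pool.Agent.N208.AM Pool.Agent.U400.PD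

/-- The families of matrices with trace zero. -/
def TT (e : ℕ) : LieSubalgebra ℂ (Fin e → M2) where
  carrier := {M | ∀ i, (M i).trace = 0}
  zero_mem' := fun _ => Matrix.trace_zero _ _
  add_mem' := fun {a b} ha hb i => by
    change (a i + b i).trace = 0
    rw [Matrix.trace_add, ha i, hb i, add_zero]
  smul_mem' := fun c a ha i => by
    change (c • a i).trace = 0
    rw [Matrix.trace_smul, ha i, smul_zero]
  lie_mem' := fun {a b} _ _ i => by
    change (a i * b i - b i * a i).trace = 0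
    rw [Matrix.trace_sub, Matrix.trace_mul_comm, sub_self]

/-- One matrix. -/
def sg {e : ℕ} (i : Fin e) (m : M2) (hm : m.trace = 0) : TT e :=
  ⟨Pi.single i m, fun j => by
    by_cases h : j = i
    · subst h
      rw [Pi.single_eq_same, hm]
    · rw [Pi.single_eq_of_ne h, Matrix.trace_zero]⟩

theorem TT.ext' {e : ℕ} {x y : TT e} (h : ∀ j, x.1 j = y.1 j) : x = y := Subtype.ext (funext h)

theorem br_tr (a b : M2) : (a * b - b * a).trace = 0 := by
  rw [Matrix.trace_sub, Matrix.trace_mul_comm, sub_self]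

theorem br_sg {e : ℕ} (t : TT e) (i : Fin e) (m : M2) (hm : m.trace = 0) :
    ⁅t, sg i m hm⁆ = sg i (t.1 i * m - m * t.1 i) (br_tr _ _) := by
  refine TT.ext' fun j => ?_
  change t.1 j * (Pi.single i m : Fin e → M2) j - (Pi.single i m : Fin e → M2) j * t.1 j =
    (Pi.single i (t.1 i * m - m * t.1 i) : Fin e → M2) j
  by_cases h : j = i
  · subst h
    rw [Pi.single_eq_same, Pi.single_eq_same]
  · rw [Pi.single_eq_of_ne h, Pi.single_eq_of_ne h, mul_zero, zero_mul, sub_zero]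

theorem sg_same {e : ℕ} (i : Fin e) (m : M2) (hm : m.trace = 0) : (sg i m hm).1 i = m :=
  Pi.single_eq_same _ _

theorem sg_ne {e : ℕ} {i j : Fin e} (h : j ≠ i) (m : M2) (hm : m.trace = 0) :
    (sg i m hm).1 j = 0 := Pi.single_eq_of_ne h _

def mH : M2 := !![1, 0; 0, -1]
def mE : M2 := !![0, 1; 0, 0]
def mF : M2 := !![0, 0; 1, 0]

theorem mH_tr : mH.trace = 0 := by simp [mH, Matrix.trace_fin_two]
theorem mE_tr : mE.trace = 0 := by simp [mE, Matrix.trace_fin_two]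
theorem mF_tr : mF.trace = 0 := by simp [mF, Matrix.trace_fin_two]

theorem sg_dec {e : ℕ} (i : Fin e) (m : M2) (hm : m.trace = 0) :
    sg i m hm = m 0 0 • sg i mH mH_tr + m 0 1 • sg i mE mE_tr + m 1 0 • sg i mF mF_tr := by
  refine TT.ext' fun j => ?_
  change (sg i m hm).1 j =
    m 0 0 • (sg i mH mH_tr).1 j + m 0 1 • (sg i mE mE_tr).1 j + m 1 0 • (sg i mF mF_tr).1 j
  by_cases h : j = i
  · subst h
    rw [sg_same, sg_same, sg_same, sg_same]
    rw [Matrix.trace_fin_two] at hm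
    have h1 : m 1 1 = - m 0 0 := by linear_combination hm
    ext a b
    fin_cases a <;> fin_cases b <;> simp [mH, mE, mF, h1]
  · rw [sg_ne h, sg_ne h, sg_ne h, sg_ne h, smul_zero, smul_zero, smul_zero, add_zero, add_zero]

theorem fam (e : ℕ) : Fam (T := TT e) (fun i : Fin e => sg i mH mH_tr) (fun i => sg i mE mE_tr)
    (fun i => sg i mF mF_tr) := by
  have k1 : mH * mE - mE * mH = 2 • mE := by
    ext a b
    fin_cases a <;> fin_cases b <;> simp [mH, mE] <;> norm_num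
  have k2 : mH * mF - mF * mH = -(2 • mF) := by
    ext a b
    fin_cases a <;> fin_cases b <;> simp [mH, mF] <;> norm_num
  have k3 : mE * mF - mF * mE = mH := by
    ext a b
    fin_cases a <;> fin_cases b <;> simp [mH, mE, mF]
  have hne : ∀ i j : Fin e, i ≠ j → ∀ (a b : M2) (ha : a.trace = 0) (hb : b.trace = 0),
      ⁅sg i a ha, sg j b hb⁆ = 0 := by
    intro i j hij a b ha hb
    rw [br_sg]
    refine TT.ext' fun l => ?_
    by_cases h : l = j
    · subst h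
      rw [sg_same, sg_ne (Ne.symm hij), zero_mul, mul_zero, sub_zero]
      rfl
    · rw [sg_ne h]
      rfl
  have b1 : ∀ i : Fin e, ⁅sg i mH mH_tr, sg i mE mE_tr⁆ = 2 • sg i mE mE_tr := by
    intro i
    rw [br_sg]
    refine TT.ext' fun l => ?_
    change _ = 2 • (sg i mE mE_tr).1 l
    by_cases h : l = i
    · subst h
      rw [sg_same, sg_same, sg_same, k1]
    · rw [sg_ne h, sg_ne h, smul_zero]
  have b2 : ∀ i : Fin e, ⁅sg i mH mH_tr, sg i mF mF_tr⁆ = -(2 • sg i mF mF_tr) := by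
    intro i
    rw [br_sg]
    refine TT.ext' fun l => ?_
    change _ = -(2 • (sg i mF mF_tr).1 l)
    by_cases h : l = i
    · subst h
      rw [sg_same, sg_same, sg_same, k2]
    · rw [sg_ne h, sg_ne h, smul_zero, neg_zero]
  have b3 : ∀ i : Fin e, ⁅sg i mE mE_tr, sg i mF mF_tr⁆ = sg i mH mH_tr := by
    intro i
    rw [br_sg]
    refine TT.ext' fun l => ?_
    by_cases h : l = i
    · subst h
      rw [sg_same, sg_same, sg_same, k3]
    · rw [sg_ne h, sg_ne h]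
  refine ⟨b1, b2, b3, ?_, fun i j hij => ⟨hne i j hij _ _ _ _, hne i j hij _ _ _ _,
    hne i j hij _ _ _ _⟩, ?_, ?_⟩
  · intro i h0
    have h1 : (sg i mE mE_tr).1 i 0 1 = (0 : TT e).1 i 0 1 := by rw [h0]
    rw [sg_same] at h1
    exact one_ne_zero (α := ℂ) h1
  · intro i t a ha
    have h1 : ∃ m, ∃ hm : m.trace = 0, a = sg i m hm := by
      rcases ha with h | h | h
      · exact ⟨_, _, h⟩
      · exact ⟨_, _, h⟩
      · exact ⟨_, _, h⟩
    obtain ⟨m, hm, rfl⟩ := h1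
    rw [br_sg]
    exact ⟨_, _, _, sg_dec i _ _⟩
  · rw [eq_top_iff]
    intro t _
    have h1 : t = ∑ i, sg i (t.1 i) (t.2 i) := by
      refine TT.ext' fun j => ?_
      have h2 : (∑ i, sg i (t.1 i) (t.2 i) : TT e).1 j = ∑ i, (sg i (t.1 i) (t.2 i)).1 j := by
        rw [show (∑ i, sg i (t.1 i) (t.2 i) : TT e).1 =
          ∑ i, (sg i (t.1 i) (t.2 i)).1 from map_sum (TT e).toSubmodule.subtype _ _,
          Finset.sum_apply]
      rw [h2, Finset.sum_eq_single j (fun i _ hij => sg_ne (Ne.symm hij) _ _)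
        (fun h => absurd (Finset.mem_univ j) h), sg_same]
    rw [h1]
    refine Submodule.sum_mem _ fun i _ => ?_
    rw [sg_dec]
    refine Submodule.add_mem _ (Submodule.add_mem _ (Submodule.smul_mem _ _ ?_)
      (Submodule.smul_mem _ _ ?_)) (Submodule.smul_mem _ _ ?_)
    · exact Submodule.subset_span ⟨_, _, (b3 i).symm⟩
    · have h2 : sg i mE mE_tr = (1 / 2 : ℂ) • ⁅sg i mH mH_tr, sg i mE mE_tr⁆ := by
        rw [b1, two_nsmul, ← two_smul ℂ, smul_smul]
        norm_num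
      rw [h2]
      exact Submodule.smul_mem _ _ (Submodule.subset_span ⟨_, _, rfl⟩)
    · have h2 : sg i mF mF_tr = (-1 / 2 : ℂ) • ⁅sg i mH mH_tr, sg i mF mF_tr⁆ := by
        rw [b2, two_nsmul, ← two_smul ℂ, ← neg_smul, smul_smul]
        norm_num
      rw [h2]
      exact Submodule.smul_mem _ _ (Submodule.subset_span ⟨_, _, rfl⟩)

theorem span_lie {R : Type} [Ring R] [Algebra ℂ R] {S : Set R}
    (hS : ∀ a ∈ S, ∀ b ∈ S, a * b - b * a ∈ Submodule.span ℂ S) :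
    ∀ a ∈ Submodule.span ℂ S, ∀ b ∈ Submodule.span ℂ S, a * b - b * a ∈ Submodule.span ℂ S := by
  intro a ha b hb
  induction ha using Submodule.span_induction with
  | mem a ha =>
    induction hb using Submodule.span_induction with
    | mem b hb => exact hS a ha b hb
    | zero => rw [mul_zero, zero_mul, sub_zero]; exact Submodule.zero_mem _
    | add x y _ _ hx hy =>
      have h1 : a * (x + y) - (x + y) * a = (a * x - x * a) + (a * y - y * a) := by
        rw [mul_add, add_mul]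
        abel
      rw [h1]
      exact Submodule.add_mem _ hx hy
    | smul c x _ hx =>
      rw [mul_smul_comm, smul_mul_assoc, ← smul_sub]
      exact Submodule.smul_mem _ c hx
  | zero => rw [mul_zero, zero_mul, sub_zero]; exact Submodule.zero_mem _
  | add x y _ _ hx hy =>
    have h1 : (x + y) * b - b * (x + y) = (x * b - b * x) + (y * b - b * y) := by
      rw [mul_add, add_mul]
      abel
    rw [h1]
    exact Submodule.add_mem _ hx hy
  | smul c x _ hx =>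
    rw [mul_smul_comm, smul_mul_assoc, ← smul_sub]
    exact Submodule.smul_mem _ c hx

variable {g k : ℕ} {A : AbVar g} {s n d : ℕ} {r : Fin s → ℕ} {B : Fin n → Ten A r} {w : Fin s → ℤ}
  {P : Matrix (Fin n) (Fin n) ℂ} {Ψ : Matrix (Fin d) (Fin d) ℂ} {Wt : Matrix (Fin n) (Fin n) ℚ}
  {H : Set (Matrix (Fin n ⊕ Fin d) (Fin n ⊕ Fin d) ℂ)}
  {PW : Fin k → Matrix (Fin (2 * g)) (Fin 2) ℂ} {QW : Fin k → Matrix (Fin 2) (Fin (2 * g)) ℂ}

/-- Planes of different colours. -/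
theorem surj_fam (h : ∀ i, Planar A (PW i) (QW i)) (hp : Pairs A PW QW)
    {𝔮 : Submodule ℚ (Module.End ℚ A.H1)} (hq : A.Full 𝔮) {e : ℕ} (c : Fin e → Fin k)
    (hc : ∀ a b, a ≠ b → ¬ SameC A PW QW (c a) (c b)) (t : Fin e → M2)
    (ht : ∀ i, (t i).trace = 0) :
    ∃ y ∈ cx (der 𝔮), ∀ a, cor (PW (c a)) (QW (c a)) y = t a := by
  let f : Module.End ℂ (ℂ ⊗[ℚ] A.H1) →ₗ[ℂ] (Fin e → M2) :=
    LinearMap.pi fun q => cor (PW (c q)) (QW (c q))
  have hf : ∀ x q, f x q = cor (PW (c q)) (QW (c q)) x := fun x q => rfl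
  have hqN : ∀ x ∈ cx (der 𝔮), x ∈ cx A.NA := fun x hx =>
    cx_mono (hq.der_le.trans hq.le) hx
  have hcore := core ((cx (der 𝔮)).map f) ?_ ?_ ?_ ?_
  · obtain ⟨y, hy, hyf⟩ := hcore t ht
    exact ⟨y, hy, fun a => congrFun hyf a⟩
  · rintro _ ⟨x, hx, rfl⟩ q
    exact (h (c q)).der_trace hq.le x hx
  · rintro _ ⟨x, hx, rfl⟩ _ ⟨y, hy, rfl⟩
    refine ⟨x * y - y * x, cx_br_der x (cx_mono hq.der_le hx) y (cx_mono hq.der_le hy), ?_⟩
    funext q
    rw [hf, (h (c q)).cor_br (hqN x hx) (hqN y hy)]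
    rfl
  · intro q v hv
    obtain ⟨x, hx, h1⟩ := (h (c q)).irr_der hq hv
    exact ⟨f x, ⟨x, hx, rfl⟩, h1⟩
  · intro q q' hqq Z hZ
    exact hp.twine h hq (hc q q' hqq) fun x hx => hZ (f x) ⟨x, hx, rfl⟩

/-- The pairs over the complex numbers. -/
def cp (p : Module.End ℚ A.H1 × Matrix (Fin d) (Fin d) ℚ) :
    Module.End ℂ (ℂ ⊗[ℚ] A.H1) × Matrix (Fin d) (Fin d) ℂ := (p.1.baseChange ℂ, -qm p.2)

theorem qm_mul' (X Y : Matrix (Fin d) (Fin d) ℚ) : qm (X * Y) = qm X * qm Y := by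
  ext i j
  simp [qm, Matrix.mul_apply]

theorem qm_sub' (X Y : Matrix (Fin d) (Fin d) ℚ) : qm (X - Y) = qm X - qm Y := by
  ext i j
  simp [qm]

/-- The elements `X` with `(X, 0)` in the derived algebra. -/
def KI (B : Fin n → Ten A r) (Wt : Matrix (Fin n) (Fin n) ℚ)
    (H : Set (Matrix (Fin n ⊕ Fin d) (Fin n ⊕ Fin d) ℂ)) : Submodule ℚ (Module.End ℚ A.H1) :=
  (dd B Wt H).comap (LinearMap.inl ℚ (Module.End ℚ A.H1) (Matrix (Fin d) (Fin d) ℚ))

theorem mem_KI {X : Module.End ℚ A.H1} :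
    X ∈ KI B Wt H ↔ (X, (0 : Matrix (Fin d) (Fin d) ℚ)) ∈ dd B Wt H := Iff.rfl

theorem KI_le : KI B Wt H ≤ der A.NA := fun _ hX => dd_fst (mem_KI.1 hX)

/-- It is an ideal. -/
theorem KI_ideal (h : Mot w B P) (hW : WRel w B Wt) (hΨ : Ψ.det ≠ 0) (hH : PtN P Ψ H)
    (hder : ∀ 𝔮 : Submodule ℚ (Module.End ℚ A.H1), A.Full 𝔮 → der A.NA ≤ der 𝔮) :
    ∀ X ∈ der A.NA, ∀ Y ∈ KI B Wt H, X * Y - Y * X ∈ KI B Wt H := by
  intro X hX Y hY
  obtain ⟨K, hK⟩ := mem_dd_of_der (hder _ (qP_full h hW hΨ hH) hX)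
  rw [mem_KI] at hY ⊢
  have h2 : (X * Y - Y * X, (0 : Matrix (Fin d) (Fin d) ℚ)) =
      brp (X, K) (Y, (0 : Matrix (Fin d) (Fin d) ℚ)) := by
    refine Prod.ext rfl ?_
    change (0 : Matrix (Fin d) (Fin d) ℚ) = 0 * K - K * 0
    rw [Matrix.zero_mul, Matrix.mul_zero, sub_zero]
  rw [h2]
  exact Submodule.subset_span ⟨_, dd_le h hW hK, _, dd_le h hW hY, rfl⟩

/-- The second component determines the first up to the ideal. -/
theorem exists_gg : ∃ gg : Matrix (Fin d) (Fin d) ℚ →ₗ[ℚ] Module.End ℚ A.H1,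
    ∀ p ∈ dd B Wt H, p.1 - gg p.2 ∈ KI B Wt H := by
  let f : dd B Wt H →ₗ[ℚ] Matrix (Fin d) (Fin d) ℚ :=
    (LinearMap.snd ℚ (Module.End ℚ A.H1) (Matrix (Fin d) (Fin d) ℚ)).comp (dd B Wt H).subtype
  obtain ⟨s1, hs1⟩ := LinearMap.exists_rightInverse_of_surjective f.rangeRestrict
    (LinearMap.range_rangeRestrict f)
  obtain ⟨s2, hs2⟩ := LinearMap.exists_extend (K := ℚ) (V := Matrix (Fin d) (Fin d) ℚ)
    (V' := dd B Wt H) (p := LinearMap.range f) s1
  refine ⟨(LinearMap.fst ℚ (Module.End ℚ A.H1) (Matrix (Fin d) (Fin d) ℚ)).comp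
    ((dd B Wt H).subtype.comp s2), fun p hp' => ?_⟩
  have h1 : s2 (f ⟨p, hp'⟩) = s1 (f.rangeRestrict ⟨p, hp'⟩) :=
    LinearMap.congr_fun hs2 (f.rangeRestrict ⟨p, hp'⟩)
  have h2 : f (s1 (f.rangeRestrict ⟨p, hp'⟩)) = f ⟨p, hp'⟩ :=
    congrArg Subtype.val (LinearMap.congr_fun hs1 (f.rangeRestrict ⟨p, hp'⟩))
  have h3 : p - (s2 (f ⟨p, hp'⟩)).1 ∈ dd B Wt H := Submodule.sub_mem _ hp' (s2 _).2
  rw [mem_KI]
  have h4 : (p.1 - (s2 (f ⟨p, hp'⟩)).1.1, (0 : Matrix (Fin d) (Fin d) ℚ)) =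
      p - (s2 (f ⟨p, hp'⟩)).1 := by
    refine Prod.ext rfl ?_
    change 0 = p.2 - (s2 (f ⟨p, hp'⟩)).1.2
    have h5 : (s2 (f ⟨p, hp'⟩)).1.2 = p.2 := by
      rw [h1]
      exact h2
    rw [h5, sub_self]
  have h5 := h3
  rw [← h4] at h5
  exact h5

theorem key_ring {S : Type*} [Ring S] (a b x y z : S) :
    z - (x * y - y * x) = -((a * b - b * a) - z) + ((a * (b - y) - (b - y) * a) -
      (b * (a - x) - (a - x) * b) - ((a - x) * (b - y) - (b - y) * (a - x))) := by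
  noncomm_ring

/-- **The quotient.** -/
theorem quot' (h : Mot w B P) (hW : WRel w B Wt) (hΨ : Ψ.det ≠ 0) (hH : PtN P Ψ H)
    (hder : ∀ 𝔮 : Submodule ℚ (Module.End ℚ A.H1), A.Full 𝔮 → der A.NA ≤ der 𝔮) :
    ∃ 𝔫 : Submodule ℚ (Matrix (Fin d) (Fin d) ℚ),
      (∀ x ∈ 𝔫, ∀ y ∈ 𝔫, x * y - y * x ∈ 𝔫) ∧ (∀ x ∈ 𝔫, x.trace = 0) ∧
      (∀ x ∈ 𝔫, ∃ M : Matrix (Fin n) (Fin n) ℚ, bl M x ∈ LR H) ∧
      ∃ φ : Matrix (Fin d) (Fin d) ℚ →ₗ[ℚ] Module.End ℚ A.H1,
        Submodule.map φ 𝔫 ⊔ KI B Wt H = der A.NA ∧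
        ∀ x ∈ 𝔫, ∀ y ∈ 𝔫, φ (x * y - y * x) - (φ x * φ y - φ y * φ x) ∈ KI B Wt H := by
  obtain ⟨gg, hgg⟩ := exists_gg (A := A) (B := B) (Wt := Wt) (H := H)
  have hid := KI_ideal h hW hΨ hH hder
  refine ⟨(dd B Wt H).map (LinearMap.snd ℚ (Module.End ℚ A.H1) (Matrix (Fin d) (Fin d) ℚ)),
    ?_, ?_, ?_, -gg, le_antisymm (sup_le ?_ KI_le) ?_, ?_⟩
  · rintro _ ⟨p, hp', rfl⟩ _ ⟨q, hq', rfl⟩
    exact ⟨brp q p, Submodule.subset_span ⟨_, dd_le h hW hq', _, dd_le h hW hp', rfl⟩, rfl⟩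
  · rintro _ ⟨p, hp', rfl⟩
    exact dd_trace hp'
  · rintro _ ⟨p, hp', rfl⟩
    obtain ⟨M, -, hM⟩ := dd_LR h hW hp'
    exact ⟨M, hM⟩
  · rintro _ ⟨_, ⟨p, hp', rfl⟩, rfl⟩
    have h1 := KI_le (hgg p hp')
    have h2 : (-gg) (LinearMap.snd ℚ (Module.End ℚ A.H1) (Matrix (Fin d) (Fin d) ℚ) p) =
        (p.1 - gg p.2) - p.1 := by
      rw [LinearMap.neg_apply, LinearMap.snd_apply]
      abel
    rw [h2]
    exact Submodule.sub_mem _ h1 (dd_fst hp')
  · intro X hX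
    obtain ⟨K, hK⟩ := mem_dd_of_der (hder _ (qP_full h hW hΨ hH) hX)
    have h1 := hgg _ hK
    have h2 : X = (-gg) (-K) + (X - gg K) := by
      rw [LinearMap.neg_apply, map_neg, neg_neg]
      abel
    rw [h2]
    refine Submodule.add_mem_sup ⟨-K, ?_, rfl⟩ h1
    exact ⟨-(X, K), Submodule.neg_mem _ hK, rfl⟩
  · rintro _ ⟨p, hp', rfl⟩ _ ⟨q, hq', rfl⟩
    have hb : brp p q ∈ dd B Wt H :=
      Submodule.subset_span ⟨_, dd_le h hW hp', _, dd_le h hW hq', rfl⟩
    have h1 := hgg p hp'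
    have h2 := hgg q hq'
    have h3 := hgg _ hb
    have hp1 := dd_fst hp'
    have hq1 := dd_fst hq'
    have e1 : p.2 * q.2 - q.2 * p.2 = -(brp p q).2 := (neg_sub _ _).symm
    have e3 : ∀ a b : Module.End ℚ A.H1, (-a) * (-b) = a * b := fun a b => neg_mul_neg a b
    rw [LinearMap.snd_apply, LinearMap.snd_apply, e1, LinearMap.neg_apply, LinearMap.neg_apply,
      LinearMap.neg_apply, map_neg, neg_neg, e3, e3]
    have e2 : gg (brp p q).2 - (gg p.2 * gg q.2 - gg q.2 * gg p.2) =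
        -((brp p q).1 - gg (brp p q).2) +
          ((p.1 * (q.1 - gg q.2) - (q.1 - gg q.2) * p.1) -
            (q.1 * (p.1 - gg p.2) - (p.1 - gg p.2) * q.1) -
            ((p.1 - gg p.2) * (q.1 - gg q.2) - (q.1 - gg q.2) * (p.1 - gg p.2))) :=
      key_ring _ _ _ _ _
    rw [e2]
    exact Submodule.add_mem _ (Submodule.neg_mem _ h3) (Submodule.sub_mem _ (Submodule.sub_mem _
      (hid _ hp1 _ h2) (hid _ hq1 _ h1)) (hid _ (KI_le h1) _ h2))

/-- **The number of colours.** -/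
theorem colours_le (h : Mot w B P) (hW : WRel w B Wt) (hΨ : Ψ.det ≠ 0) (hH : PtN P Ψ H)
    (hpl : ∀ i, Planar A (PW i) (QW i)) (hp : Pairs A PW QW)
    {e : ℕ} (c : Fin e → Fin k) (hc : ∀ a b, a ≠ b → ¬ SameC A PW QW (c a) (c b))
    (hK : ∀ a, ∀ X ∈ KI B Wt H, cor (PW (c a)) (QW (c a)) (X.baseChange ℂ) = 0) :
    2 * e ≤ d := by
  classical
  have hq := qP_full h hW hΨ hH
  set S : Set (Module.End ℂ (ℂ ⊗[ℚ] A.H1) × Matrix (Fin d) (Fin d) ℂ) :=
    {z | ∃ p ∈ dd B Wt H, z = cp p} with hS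
  have hSbr : ∀ a ∈ S, ∀ b ∈ S, a * b - b * a ∈ Submodule.span ℂ S := by
    rintro _ ⟨p, hp', rfl⟩ _ ⟨q, hq', rfl⟩
    refine Submodule.subset_span ⟨brp p q, Submodule.subset_span
      ⟨p, dd_le h hW hp', q, dd_le h hW hq', rfl⟩, ?_⟩
    refine Prod.ext ?_ ?_
    · change p.1.baseChange ℂ * q.1.baseChange ℂ - q.1.baseChange ℂ * p.1.baseChange ℂ =
        (p.1 * q.1 - q.1 * p.1).baseChange ℂ
      rw [bc_br]
    · change (-qm p.2) * (-qm q.2) - (-qm q.2) * (-qm p.2) = -qm (q.2 * p.2 - p.2 * q.2)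
      rw [qm_sub', qm_mul', qm_mul', neg_mul_neg, neg_mul_neg, neg_sub]
  let L : LieSubalgebra ℂ (Module.End ℂ (ℂ ⊗[ℚ] A.H1) × Matrix (Fin d) (Fin d) ℂ) :=
    { Submodule.span ℂ S with
      lie_mem' := fun {a b} ha hb => span_lie hSbr a ha b hb }
  -- the first components
  have hfst : ∀ x ∈ Submodule.span ℂ S, x.1 ∈ cx (der A.NA) := by
    intro x hx
    induction hx using Submodule.span_induction with
    | mem x hx =>
      obtain ⟨p, hp', rfl⟩ := hx
      exact bc_mem (dd_fst hp')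
    | zero => exact Submodule.zero_mem _
    | add a b _ _ ha hb => exact Submodule.add_mem _ ha hb
    | smul c a _ ha => exact Submodule.smul_mem _ c ha
  have hlift : ∀ y ∈ cx (der (qP B Wt H)), ∃ M, (y, M) ∈ Submodule.span ℂ S := by
    intro y hy
    induction hy using Submodule.span_induction with
    | mem y hy =>
      obtain ⟨X, hX, rfl⟩ := hy
      obtain ⟨K, hK⟩ := mem_dd_of_der hX
      exact ⟨-qm K, Submodule.subset_span ⟨(X, K), hK, rfl⟩⟩
    | zero => exact ⟨0, Submodule.zero_mem _⟩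
    | add a b _ _ ha hb =>
      obtain ⟨M, hM⟩ := ha
      obtain ⟨M', hM'⟩ := hb
      exact ⟨M + M', Submodule.add_mem _ hM hM'⟩
    | smul z a _ ha =>
      obtain ⟨M, hM⟩ := ha
      exact ⟨z • M, Submodule.smul_mem _ z hM⟩
  -- the second component determines the first up to the ideal
  obtain ⟨gg, hgg⟩ := exists_gg (A := A) (B := B) (Wt := Wt) (H := H)
  let gC : Matrix (Fin d) (Fin d) ℂ →ₗ[ℂ] Module.End ℂ (ℂ ⊗[ℚ] A.H1) :=
    ∑ i, ∑ j, LinearMap.smulRight (Matrix.entryLinearMap ℂ ℂ i j)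
      ((gg (Matrix.single i j 1)).baseChange ℂ)
  have hgC : ∀ K : Matrix (Fin d) (Fin d) ℚ, gC (qm K) = (gg K).baseChange ℂ := by
    intro K
    have h1 : gg K = ∑ i, ∑ j, K i j • gg (Matrix.single i j 1) := by
      conv_lhs => rw [Matrix.matrix_eq_sum_single K]
      rw [map_sum]
      refine Finset.sum_congr rfl fun i _ => ?_
      rw [map_sum]
      refine Finset.sum_congr rfl fun j _ => ?_
      rw [← map_smul, Matrix.smul_single, smul_eq_mul, mul_one]
    have h2 : ∀ X : Module.End ℚ A.H1, X.baseChange ℂ = LinearMap.baseChangeHom ℚ ℂ A.H1 A.H1 X :=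
      fun X => rfl
    rw [h1, h2, map_sum]
    simp only [gC, LinearMap.sum_apply]
    refine Finset.sum_congr rfl fun i _ => ?_
    rw [map_sum]
    refine Finset.sum_congr rfl fun j _ => ?_
    rw [map_smul, ← h2, LinearMap.smulRight_apply]
    change ((K i j : ℚ) : ℂ) • _ = _
    refine LinearMap.ext fun v => ?_
    rw [LinearMap.smul_apply, LinearMap.smul_apply]
    exact (Rat.cast_smul_eq_qsmul ℂ (K i j) _)
  have hdet : ∀ x ∈ Submodule.span ℂ S, ∀ a, cor (PW (c a)) (QW (c a)) (x.1 + gC x.2) = 0 := by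
    intro x hx a
    induction hx using Submodule.span_induction with
    | mem x hx =>
      obtain ⟨p, hp', rfl⟩ := hx
      change cor (PW (c a)) (QW (c a)) (p.1.baseChange ℂ + gC (-qm p.2)) = 0
      rw [map_neg, hgC, ← sub_eq_add_neg, ← LinearMap.baseChange_sub]
      exact hK a _ (hgg p hp')
    | zero => rw [Prod.fst_zero, Prod.snd_zero, map_zero, add_zero, map_zero]
    | add y z _ _ hy hz =>
      have e1 : (y + z).1 + gC (y + z).2 = (y.1 + gC y.2) + (z.1 + gC z.2) := by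
        rw [Prod.fst_add, Prod.snd_add, map_add gC]
        abel
      rw [e1, map_add, hy, hz, add_zero]
    | smul z y _ hy =>
      have e1 : (z • y).1 + gC (z • y).2 = z • (y.1 + gC y.2) := by
        rw [Prod.smul_fst, Prod.smul_snd, map_smul gC, smul_add]
      rw [e1, map_smul, hy, smul_zero]
  let φ : L →ₗ⁅ℂ⁆ TT e :=
    { toFun := fun x => ⟨fun a => cor (PW (c a)) (QW (c a)) x.1.1, fun a =>
        (hpl (c a)).der_trace le_rfl _ (hfst _ x.2)⟩
      map_add' := fun x y => TT.ext' fun a => map_add _ _ _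
      map_smul' := fun z x => TT.ext' fun a => map_smul _ _ _
      map_lie' := fun {x y} => TT.ext' fun a =>
        (hpl (c a)).cor_br (cx_mono der_NA_le (hfst _ x.2)) (cx_mono der_NA_le (hfst _ y.2)) }
  let ρ : L →ₗ⁅ℂ⁆ Module.End ℂ (Fin d → ℂ) :=
    { toFun := fun x => Matrix.toLin' x.1.2
      map_add' := fun x y => map_add _ _ _
      map_smul' := fun z x => map_smul _ _ _
      map_lie' := fun {x y} => by
        change Matrix.toLin' (x.1.2 * y.1.2 - y.1.2 * x.1.2) = _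
        rw [map_sub, Matrix.toLin'_mul, Matrix.toLin'_mul]
        rfl }
  let _ : LieRingModule L (Fin d → ℂ) := LieRingModule.compLieHom (Fin d → ℂ) ρ
  have _ : LieModule ℂ L (Fin d → ℂ) := LieModule.compLieHom (Fin d → ℂ) ρ
  have hρ : ∀ x : L, toEnd ℂ L (Fin d → ℂ) x = Matrix.toLin' x.1.2 := fun x => rfl
  have hsurj : Function.Surjective φ := by
    intro t
    obtain ⟨y, hy, h1⟩ := surj_fam hpl hp hq c hc t.1 t.2
    obtain ⟨M, hM⟩ := hlift y hy
    exact ⟨⟨(y, M), hM⟩, TT.ext' h1⟩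
  have h1 := rank_bound (V := Fin d → ℂ) φ hsurj (fam e) (fun x hx => by
    rw [hρ] at hx
    have h2 : x.1.2 = 0 := by
      rw [← map_zero (Matrix.toLin' (R := ℂ) (m := Fin d) (n := Fin d))] at hx
      exact Matrix.toLin'.injective hx
    refine TT.ext' fun a => ?_
    have h3 := hdet _ x.2 a
    rw [h2, map_zero, add_zero] at h3
    exact h3)
  rw [Fintype.card_fin, Module.finrank_fin_fun] at h1
  exact h1

end Pool.Agent.U400.PN
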