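import Pool.Agent.U400.PM.Gen

set_option autoImplicit false
set_option linter.unusedSectionVars false

/-!
# The sum of a motive generated by an abelian variety and an arbitrary structure
-/

open Module Function TensorProduct Matrix

noncomputable section

namespace Pool.Agent.U400.PN

open Pool.Agent.Y102 Pool.Agent.W516.DR Pool.Agent.H204R3.GP Pool.Agent.W516.KC
  Pool.Agent.H204R3.SP Pool.Agent.TH119.MX Pool.Agent.R917 Pool.Agent.N208.AM

theorem neg_key {S : Type*} [Ring S] (a b : S) :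
    -(b * a - a * b) = (-a) * (-b) - (-b) * (-a) := by
  rw [neg_mul_neg, neg_mul_neg, neg_sub]

section LRs

variable {R : Type} [Fintype R] [DecidableEq R]

/-- The complex matrix of a rational matrix. -/
def qm (X : Matrix R R ℚ) : Matrix R R ℂ := X.map fun q => (q : ℂ)

/-- The rational Lie algebra of a group of matrices. -/
def LR (H : Set (Matrix R R ℂ)) : Submodule ℚ (Matrix R R ℚ) where
  carrier := {M | ∀ d, Stab H d (qm M)}
  zero_mem' := fun d => by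
    have h : qm (0 : Matrix R R ℚ) = 0 := by
      ext i j
      simp [qm]
    rw [h]
    exact Stab.zero
  add_mem' := fun {X Y} hX hY d => by
    have h : qm (X + Y) = qm X + qm Y := by
      ext i j
      simp [qm]
    rw [h]
    exact (hX d).add (hY d)
  smul_mem' := fun c X hX d => by
    have h : qm (c • X) = (c : ℂ) • qm X := by
      ext i j
      simp [qm]
    rw [h]
    exact (hX d).smul _

theorem LR_br {H : Set (Matrix R R ℂ)} {X Y : Matrix R R ℚ}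
    (hX : X ∈ LR H) (hY : Y ∈ LR H) : X * Y - Y * X ∈ LR H := by
  intro d
  have h : qm (X * Y - Y * X) = qm X * qm Y - qm Y * qm X := by
    ext i j
    simp [qm, Matrix.mul_apply]
  rw [h]
  exact (hX d).comm (hY d)

end LRs

variable {g : ℕ} {A : AbVar g} {s n d : ℕ} {r : Fin s → ℕ} {B : Fin n → Ten A r} {w : Fin s → ℤ}
  {P : Matrix (Fin n) (Fin n) ℂ} {Ψ : Matrix (Fin d) (Fin d) ℂ} {Wt : Matrix (Fin n) (Fin n) ℚ}
  {H : Set (Matrix (Fin n ⊕ Fin d) (Fin n ⊕ Fin d) ℂ)}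

/-- The direct sum of two matrices. -/
abbrev bl {α : Type} [Zero α] (X : Matrix (Fin n) (Fin n) α) (K : Matrix (Fin d) (Fin d) α) :
    Matrix (Fin n ⊕ Fin d) (Fin n ⊕ Fin d) α := Matrix.fromBlocks X 0 0 K

theorem bl_mul {α : Type} [NonUnitalNonAssocSemiring α] (X X' : Matrix (Fin n) (Fin n) α)
    (K K' : Matrix (Fin d) (Fin d) α) : bl X K * bl X' K' = bl (X * X') (K * K') := by
  unfold bl
  rw [Matrix.fromBlocks_multiply]
  simp only [Matrix.mul_zero, Matrix.zero_mul, add_zero, zero_add]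

theorem bl_sub (X X' : Matrix (Fin n) (Fin n) ℚ) (K K' : Matrix (Fin d) (Fin d) ℚ) :
    bl X K - bl X' K' = bl (X - X') (K - K') := by
  unfold bl
  rw [sub_eq_add_neg, Matrix.fromBlocks_neg, Matrix.fromBlocks_add]
  simp only [neg_zero, add_zero, ← sub_eq_add_neg]

theorem bl_add (X X' : Matrix (Fin n) (Fin n) ℚ) (K K' : Matrix (Fin d) (Fin d) ℚ) :
    bl X K + bl X' K' = bl (X + X') (K + K') := by
  unfold bl
  rw [Matrix.fromBlocks_add]
  simp only [add_zero]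

theorem bl_smul (c : ℚ) (X : Matrix (Fin n) (Fin n) ℚ) (K : Matrix (Fin d) (Fin d) ℚ) :
    c • bl X K = bl (c • X) (c • K) := by
  unfold bl
  rw [Matrix.fromBlocks_smul]
  simp only [smul_zero]

/-- The group contains a point of the torsor of periods of the sum. -/
structure PtN (P : Matrix (Fin n) (Fin n) ℂ) (Ψ : Matrix (Fin d) (Fin d) ℂ)
    (H : Set (Matrix (Fin n ⊕ Fin d) (Fin n ⊕ Fin d) ℂ)) : Prop where
  grp : AlgGrp QQ H
  pt : ∃ T T' : Matrix (Fin n ⊕ Fin d) (Fin n ⊕ Fin d) ℂ, T * T' = 1 ∧ (∀ i j, T' i j ∈ QA) ∧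
    bl P Ψ * T ∈ H

theorem log_mem' (h : Mot w B P) (hΨ : Ψ.det ≠ 0) (hH : PtN P Ψ H) (D : Derivation QBar ℂ ℂ)
    (lam : ℂ →ₗ[ℚ] ℚ) {M Wt : Matrix (Fin n) (Fin n) ℚ}
    (hM : Rel B (X0 A.basis tau D lam) M) (hW : WRel w B Wt) :
    bl (M + lam (D tau / (2 * tau)) • Wt)
      (Matrix.of fun i j => lam ((Ψ.map D * Ψ⁻¹) i j)) ∈ LR H := by
  intro k
  have hu : IsUnit P.det := isUnit_iff_ne_zero.2 h.det
  have hv : IsUnit Ψ.det := isUnit_iff_ne_zero.2 hΨ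
  have h1 : bl P Ψ * bl P⁻¹ Ψ⁻¹ = 1 := by
    rw [bl_mul, Matrix.mul_nonsing_inv _ hu, Matrix.mul_nonsing_inv _ hv]
    exact Matrix.fromBlocks_one
  have h2 : bl P⁻¹ Ψ⁻¹ * bl P Ψ = 1 := by
    rw [bl_mul, Matrix.nonsing_inv_mul _ hu, Matrix.nonsing_inv_mul _ hv]
    exact Matrix.fromBlocks_one
  obtain ⟨T, T', h3, h4, h5⟩ := hH.pt
  have h6 := hH.grp.stab_der QQ_le_QA (fun x hx => mem_QA.1 hx) h1 h2 h3 h4 h5 (derQ D) (d := k)
  have h7 := hH.grp.stab_map (lamF lam) h6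
  have e1 : (bl P Ψ).map (derQ D) = bl (P.map D) (Ψ.map D) := by
    unfold bl
    rw [Matrix.fromBlocks_map]
    congr 1
    · ext i j
      exact (derQ D).map_zero
    · ext i j
      exact (derQ D).map_zero
  have h8 : ((bl P Ψ).map (derQ D) * bl P⁻¹ Ψ⁻¹).map (lamF lam) =
      qm (bl (M + lam (D tau / (2 * tau)) • Wt)
        (Matrix.of fun i j => lam ((Ψ.map D * Ψ⁻¹) i j))) := by
    rw [e1, bl_mul]
    unfold bl qm
    rw [Matrix.fromBlocks_map, Matrix.fromBlocks_map]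
    congr 1
    · ext b c
      rw [Matrix.map_apply, Matrix.map_apply, lamF_apply]
      have h9 := lam_log h (Matrix.mul_nonsing_inv _ hu) D lam hM hW b c
      rw [h9, Matrix.add_apply, Matrix.smul_apply, smul_eq_mul]
    · ext i j
      rw [Matrix.map_apply, Matrix.map_apply, lamF_apply]
      simp
    · ext i j
      rw [Matrix.map_apply, Matrix.map_apply, lamF_apply]
      simp
  rwa [h8] at h7

/-- The pairs of an element of the Lie algebra and a matrix whose sum is in the Lie algebra of the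
group, up to a multiple of the weight. -/
def pp (B : Fin n → Ten A r) (Wt : Matrix (Fin n) (Fin n) ℚ)
    (H : Set (Matrix (Fin n ⊕ Fin d) (Fin n ⊕ Fin d) ℂ)) :
    Submodule ℚ (Module.End ℚ A.H1 × Matrix (Fin d) (Fin d) ℚ) where
  carrier := {p | p.1 ∈ A.NA ∧ ∃ M, Rel B p.1 M ∧ ∃ c : ℚ, bl (M + c • Wt) p.2 ∈ LR H}
  zero_mem' := ⟨A.NA.zero_mem, 0, Rel.zero, 0, by
    have h1 : bl ((0 : Matrix (Fin n) (Fin n) ℚ) + (0 : ℚ) • Wt)
        (0 : Module.End ℚ A.H1 × Matrix (Fin d) (Fin d) ℚ).2 = 0 := by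
      rw [zero_smul, add_zero]
      exact Matrix.fromBlocks_zero
    rw [h1]
    exact (LR H).zero_mem⟩
  add_mem' := by
    rintro p q ⟨hX, M, hM, c, hc⟩ ⟨hY, N, hN, d, hd⟩
    refine ⟨A.NA.add_mem hX hY, M + N, hM.add hN, c + d, ?_⟩
    have h1 := (LR H).add_mem hc hd
    rw [bl_add] at h1
    have h2 : M + N + (c + d) • Wt = M + c • Wt + (N + d • Wt) := by
      rw [add_smul]
      abel
    rw [h2]
    exact h1
  smul_mem' := by
    rintro a p ⟨hX, M, hM, c, hc⟩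
    refine ⟨A.NA.smul_mem a hX, a • M, hM.smul a, a * c, ?_⟩
    have h1 := (LR H).smul_mem a hc
    rw [bl_smul, smul_add, smul_smul] at h1
    exact h1

/-- The bracket of two pairs. -/
def brp (p q : Module.End ℚ A.H1 × Matrix (Fin d) (Fin d) ℚ) :
    Module.End ℚ A.H1 × Matrix (Fin d) (Fin d) ℚ :=
  (p.1 * q.1 - q.1 * p.1, q.2 * p.2 - p.2 * q.2)

/-- The brackets are in the Lie algebra of the group. -/
theorem pp_br (h : Mot w B P) (hW : WRel w B Wt)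
    {p q : Module.End ℚ A.H1 × Matrix (Fin d) (Fin d) ℚ}
    (hp : p ∈ pp B Wt H) (hq : q ∈ pp B Wt H) {N : Matrix (Fin n) (Fin n) ℚ}
    (hN : Rel B (p.1 * q.1 - q.1 * p.1) N) : bl N (q.2 * p.2 - p.2 * q.2) ∈ LR H := by
  obtain ⟨hX, M, hM, c, hc⟩ := hp
  obtain ⟨hY, M', hM', e, he⟩ := hq
  have h1 := LR_br he hc
  rw [bl_mul, bl_mul, bl_sub] at h1
  have h2 : (M' + e • Wt) * (M + c • Wt) - (M + c • Wt) * (M' + e • Wt) = M' * M - M * M' := by
    have e1 := WRel.comm h.li hM hW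
    have e2 := WRel.comm h.li hM' hW
    rw [add_mul, mul_add, mul_add, add_mul, mul_add, mul_add]
    simp only [smul_mul_assoc, mul_smul_comm, e1, e2, smul_smul]
    rw [mul_comm c e]
    abel
  rw [h2, ← Rel.uniq h.li hN (hM.br hM')] at h1
  exact h1

theorem brp_mem (h : Mot w B P) (hW : WRel w B Wt)
    {p q : Module.End ℚ A.H1 × Matrix (Fin d) (Fin d) ℚ}
    (hp : p ∈ pp B Wt H) (hq : q ∈ pp B Wt H) : brp p q ∈ pp B Wt H := by
  obtain ⟨N, hN⟩ := h.st _ (A.NA_bracket hp.1 hq.1)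
  refine ⟨A.NA_bracket hp.1 hq.1, N, hN, 0, ?_⟩
  rw [zero_smul, add_zero]
  exact pp_br h hW hp hq hN

/-- The derived algebra. -/
def dd (B : Fin n → Ten A r) (Wt : Matrix (Fin n) (Fin n) ℚ)
    (H : Set (Matrix (Fin n ⊕ Fin d) (Fin n ⊕ Fin d) ℂ)) :
    Submodule ℚ (Module.End ℚ A.H1 × Matrix (Fin d) (Fin d) ℚ) :=
  Submodule.span ℚ {z | ∃ p ∈ pp B Wt H, ∃ q ∈ pp B Wt H, z = brp p q}

theorem dd_le (h : Mot w B P) (hW : WRel w B Wt) : dd B Wt H ≤ pp B Wt H := by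
  unfold dd
  rw [Submodule.span_le]
  rintro _ ⟨p, hp, q, hq, rfl⟩
  exact brp_mem h hW hp hq

theorem dd_LR (h : Mot w B P) (hW : WRel w B Wt)
    {p : Module.End ℚ A.H1 × Matrix (Fin d) (Fin d) ℚ} (hp : p ∈ dd B Wt H) :
    ∃ M, Rel B p.1 M ∧ bl M p.2 ∈ LR H := by
  unfold dd at hp
  induction hp using Submodule.span_induction with
  | mem p hp =>
    obtain ⟨p, hp, q, hq, rfl⟩ := hp
    obtain ⟨N, hN⟩ := h.st _ (A.NA_bracket hp.1 hq.1)
    exact ⟨N, hN, pp_br h hW hp hq hN⟩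
  | zero => exact ⟨0, Rel.zero, by
      have h1 : bl (0 : Matrix (Fin n) (Fin n) ℚ)
          (0 : Module.End ℚ A.H1 × Matrix (Fin d) (Fin d) ℚ).2 = 0 := Matrix.fromBlocks_zero
      rw [h1]
      exact (LR H).zero_mem⟩
  | add a b _ _ ha hb =>
    obtain ⟨M, h1, h2⟩ := ha
    obtain ⟨M', h1', h2'⟩ := hb
    refine ⟨M + M', h1.add h1', ?_⟩
    have h3 := (LR H).add_mem h2 h2'
    rwa [bl_add] at h3
  | smul c a _ ha =>
    obtain ⟨M, h1, h2⟩ := ha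
    refine ⟨c • M, h1.smul c, ?_⟩
    have h3 := (LR H).smul_mem c h2
    rwa [bl_smul] at h3

theorem dd_trace {p : Module.End ℚ A.H1 × Matrix (Fin d) (Fin d) ℚ} (hp : p ∈ dd B Wt H) :
    p.2.trace = 0 := by
  unfold dd at hp
  induction hp using Submodule.span_induction with
  | mem p hp =>
    obtain ⟨p, hp, q, hq, rfl⟩ := hp
    change (q.2 * p.2 - p.2 * q.2).trace = 0
    rw [Matrix.trace_sub, Matrix.trace_mul_comm, sub_self]
  | zero => exact Matrix.trace_zero _ _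
  | add a b _ _ ha hb =>
    change (a.2 + b.2).trace = 0
    rw [Matrix.trace_add, ha, hb, add_zero]
  | smul c a _ ha =>
    change (c • a.2).trace = 0
    rw [Matrix.trace_smul, ha, smul_zero]

/-- The projection to the first factor. -/
def qP (B : Fin n → Ten A r) (Wt : Matrix (Fin n) (Fin n) ℚ)
    (H : Set (Matrix (Fin n ⊕ Fin d) (Fin n ⊕ Fin d) ℂ)) : Submodule ℚ (Module.End ℚ A.H1) :=
  (pp B Wt H).map (LinearMap.fst ℚ _ _)

theorem mem_qP {X : Module.End ℚ A.H1} :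
    X ∈ qP B Wt H ↔ ∃ K, (X, K) ∈ pp B Wt H := by
  constructor
  · rintro ⟨⟨Y, K⟩, h1, rfl⟩
    exact ⟨K, h1⟩
  · rintro ⟨K, h⟩
    exact ⟨(X, K), h, rfl⟩

/-- The projection is full. -/
theorem qP_full (h : Mot w B P) (hW : WRel w B Wt) (hΨ : Ψ.det ≠ 0) (hH : PtN P Ψ H) :
    A.Full (qP B Wt H) := by
  refine full_of_X0 A (fun X hX => ?_) (fun X hX Y hY => ?_) fun D lam => ?_
  · obtain ⟨K, hK⟩ := mem_qP.1 hX
    exact hK.1
  · obtain ⟨K, hK⟩ := mem_qP.1 hX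
    obtain ⟨L, hL⟩ := mem_qP.1 hY
    exact mem_qP.2 ⟨_, brp_mem h hW hK hL⟩
  · have h0 : X0 A.basis tau D lam ∈ A.NA := A.LA_le_NA (by
      rw [AbVar.LA_eq]
      exact X0_mem A.basis AbVar.tau_ne D lam)
    obtain ⟨N, hN⟩ := h.st _ h0
    exact mem_qP.2 ⟨_, h0, N, hN, _, log_mem' h hΨ hH D lam hN hW⟩

theorem mem_dd_of_der {X : Module.End ℚ A.H1} (hX : X ∈ der (qP B Wt H)) :
    ∃ K, (X, K) ∈ dd B Wt H := by
  unfold der at hX
  induction hX using Submodule.span_induction with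
  | mem X hX =>
    obtain ⟨X, hX, Y, hY, rfl⟩ := hX
    obtain ⟨K, hK⟩ := mem_qP.1 hX
    obtain ⟨L, hL⟩ := mem_qP.1 hY
    exact ⟨_, Submodule.subset_span ⟨_, hK, _, hL, rfl⟩⟩
  | zero => exact ⟨0, Submodule.zero_mem _⟩
  | add a b _ _ ha hb =>
    obtain ⟨K, h1⟩ := ha
    obtain ⟨L, h2⟩ := hb
    exact ⟨K + L, Submodule.add_mem _ h1 h2⟩
  | smul c a _ ha =>
    obtain ⟨K, h1⟩ := ha
    exact ⟨c • K, Submodule.smul_mem _ c h1⟩

theorem dd_fst {p : Module.End ℚ A.H1 × Matrix (Fin d) (Fin d) ℚ} (hp : p ∈ dd B Wt H) :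
    p.1 ∈ der A.NA := by
  unfold dd at hp
  induction hp using Submodule.span_induction with
  | mem p hp =>
    obtain ⟨p, hp, q, hq, rfl⟩ := hp
    exact Submodule.subset_span ⟨p.1, hp.1, q.1, hq.1, rfl⟩
  | zero => exact Submodule.zero_mem _
  | add a b _ _ ha hb => exact Submodule.add_mem _ ha hb
  | smul c a _ ha => exact Submodule.smul_mem _ c ha

/-- The Lie algebra is simple. -/
def Simple (S : Submodule ℚ (Module.End ℚ A.H1)) : Prop :=
  S ≠ ⊥ ∧ ∀ I : Submodule ℚ (Module.End ℚ A.H1), I ≤ S →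
    (∀ X ∈ S, ∀ Y ∈ I, X * Y - Y * X ∈ I) → I = ⊥ ∨ I = S

/-- **The alternative.** -/
theorem dich (h : Mot w B P) (hW : WRel w B Wt) (hΨ : Ψ.det ≠ 0) (hH : PtN P Ψ H)
    (hder : ∀ 𝔮 : Submodule ℚ (Module.End ℚ A.H1), A.Full 𝔮 → der A.NA ≤ der 𝔮)
    (hs : Simple (der A.NA)) :
    (∀ X ∈ der A.NA, (X, (0 : Matrix (Fin d) (Fin d) ℚ)) ∈ dd B Wt H) ∨
    ∀ X, (X, (0 : Matrix (Fin d) (Fin d) ℚ)) ∈ dd B Wt H → X = 0 := by
  let I : Submodule ℚ (Module.End ℚ A.H1) :=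
    (dd B Wt H).comap (LinearMap.inl ℚ (Module.End ℚ A.H1) (Matrix (Fin d) (Fin d) ℚ))
  have hI : ∀ X, X ∈ I ↔ (X, (0 : Matrix (Fin d) (Fin d) ℚ)) ∈ dd B Wt H := fun X => Iff.rfl
  have hid : ∀ X ∈ der A.NA, ∀ Y ∈ I, X * Y - Y * X ∈ I := by
    intro X hX Y hY
    obtain ⟨K, hK⟩ := mem_dd_of_der (hder _ (qP_full h hW hΨ hH) hX)
    rw [hI] at hY ⊢
    have h2 : (X * Y - Y * X, (0 : Matrix (Fin d) (Fin d) ℚ)) =
        brp (X, K) (Y, (0 : Matrix (Fin d) (Fin d) ℚ)) := by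
      refine Prod.ext rfl ?_
      change (0 : Matrix (Fin d) (Fin d) ℚ) = 0 * K - K * 0
      rw [Matrix.zero_mul, Matrix.mul_zero, sub_zero]
    rw [h2]
    exact Submodule.subset_span ⟨_, dd_le h hW hK, _, dd_le h hW hY, rfl⟩
  rcases hs.2 I (fun X hX => dd_fst ((hI X).1 hX)) hid with h1 | h1
  · right
    intro X hX
    have h2 : X ∈ I := hX
    rw [h1, Submodule.mem_bot] at h2
    exact h2
  · left
    intro X hX
    rw [← h1] at hX
    exact hX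

/-- **The quotient.** -/
theorem quot (h : Mot w B P) (hW : WRel w B Wt) (hΨ : Ψ.det ≠ 0) (hH : PtN P Ψ H)
    (hder : ∀ 𝔮 : Submodule ℚ (Module.End ℚ A.H1), A.Full 𝔮 → der A.NA ≤ der 𝔮)
    (hinj : ∀ X, (X, (0 : Matrix (Fin d) (Fin d) ℚ)) ∈ dd B Wt H → X = 0) :
    ∃ 𝔫 : Submodule ℚ (Matrix (Fin d) (Fin d) ℚ),
      (∀ x ∈ 𝔫, ∀ y ∈ 𝔫, x * y - y * x ∈ 𝔫) ∧ (∀ x ∈ 𝔫, x.trace = 0) ∧
      (∀ x ∈ 𝔫, ∃ M : Matrix (Fin n) (Fin n) ℚ, bl M x ∈ LR H) ∧
      ∃ φ : 𝔫 →ₗ[ℚ] Module.End ℚ A.H1, LinearMap.range φ = der A.NA ∧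
        ∀ x y z : 𝔫, (z : Matrix (Fin d) (Fin d) ℚ) = x * y - y * x →
          φ z = φ x * φ y - φ y * φ x := by
  let f : dd B Wt H →ₗ[ℚ] Matrix (Fin d) (Fin d) ℚ :=
    (LinearMap.snd ℚ (Module.End ℚ A.H1) (Matrix (Fin d) (Fin d) ℚ)).comp (dd B Wt H).subtype
  have hf : Function.Injective f := by
    rintro ⟨a, ha⟩ ⟨b, hb⟩ hab
    have h1 : a.2 = b.2 := hab
    have h2 : a - b ∈ dd B Wt H := Submodule.sub_mem _ ha hb
    have h3 : a - b = (a.1 - b.1, (0 : Matrix (Fin d) (Fin d) ℚ)) :=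
      Prod.ext rfl (by rw [Prod.snd_sub, h1, sub_self])
    rw [h3] at h2
    have h4 := hinj _ h2
    exact Subtype.ext (Prod.ext (sub_eq_zero.1 h4) h1)
  let e := LinearEquiv.ofInjective f hf
  let φ : LinearMap.range f →ₗ[ℚ] Module.End ℚ A.H1 :=
    -((LinearMap.fst ℚ (Module.End ℚ A.H1) (Matrix (Fin d) (Fin d) ℚ)).comp
      ((dd B Wt H).subtype.comp e.symm.toLinearMap))
  have hφ : ∀ (p : dd B Wt H) (z : LinearMap.range f), (z : Matrix (Fin d) (Fin d) ℚ) = p.1.2 →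
      φ z = -p.1.1 := by
    intro p z hz
    have h1 : e p = z := Subtype.ext hz.symm
    change -((e.symm z).1.1) = _
    rw [← h1, LinearEquiv.symm_apply_apply]
  refine ⟨LinearMap.range f, ?_, ?_, ?_, φ, ?_, ?_⟩
  · rintro _ ⟨p, rfl⟩ _ ⟨q, rfl⟩
    exact ⟨⟨brp q.1 p.1, Submodule.subset_span ⟨_, dd_le h hW q.2, _, dd_le h hW p.2, rfl⟩⟩, rfl⟩
  · rintro _ ⟨p, rfl⟩
    exact dd_trace p.2
  · rintro _ ⟨p, rfl⟩
    obtain ⟨M, -, hM⟩ := dd_LR h hW p.2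
    exact ⟨M, hM⟩
  · refine le_antisymm ?_ ?_
    · rintro _ ⟨z, rfl⟩
      obtain ⟨p, hp⟩ := z.2
      rw [hφ p z hp.symm]
      exact Submodule.neg_mem _ (dd_fst p.2)
    · intro X hX
      obtain ⟨K, hK⟩ := mem_dd_of_der (hder _ (qP_full h hW hΨ hH) hX)
      refine ⟨-⟨K, ⟨(X, K), hK⟩, rfl⟩, ?_⟩
      rw [map_neg, hφ ⟨(X, K), hK⟩ _ rfl, neg_neg]
  · intro x y z hz
    obtain ⟨p, hp⟩ := x.2
    obtain ⟨q, hq⟩ := y.2
    have hp' : (x : Matrix (Fin d) (Fin d) ℚ) = p.1.2 := hp.symm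
    have hq' : (y : Matrix (Fin d) (Fin d) ℚ) = q.1.2 := hq.symm
    rw [hφ p x hp', hφ q y hq', hφ ⟨brp q.1 p.1, Submodule.subset_span
      ⟨_, dd_le h hW q.2, _, dd_le h hW p.2, rfl⟩⟩ z (by rw [hz, hp', hq']; rfl)]
    exact neg_key _ _

/-- The dimensions. -/
theorem quot_dim {S : Submodule ℚ (Module.End ℚ A.H1)} (hS : S ≠ ⊥)
    {𝔫 : Submodule ℚ (Matrix (Fin d) (Fin d) ℚ)} (htr : ∀ x ∈ 𝔫, x.trace = 0)
    (φ : 𝔫 →ₗ[ℚ] Module.End ℚ A.H1) (hφ : LinearMap.range φ = S) : finrank ℚ S < d ^ 2 := by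
  have h1 : finrank ℚ S ≤ finrank ℚ 𝔫 := by
    rw [← hφ]
    exact LinearMap.finrank_range_le φ
  have h2 : finrank ℚ (Matrix (Fin d) (Fin d) ℚ) = d ^ 2 := by
    rw [Module.finrank_matrix, Fintype.card_fin, finrank_self, mul_one, sq]
  have hd : d ≠ 0 := by
    rintro rfl
    have h3 : finrank ℚ 𝔫 ≤ 0 := by
      have h4 := Submodule.finrank_le 𝔫
      rw [h2] at h4
      exact h4
    have h5 : finrank ℚ S = 0 := Nat.le_zero.1 (h1.trans h3)
    exact hS (Submodule.finrank_eq_zero.1 h5)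
  have h3 : 𝔫 ≠ ⊤ := by
    intro h4
    have h5 := htr 1 (by rw [h4]; trivial)
    rw [Matrix.trace_one, Fintype.card_fin] at h5
    exact hd (by exact_mod_cast h5)
  have h4 := Submodule.finrank_lt h3
  rw [h2] at h4
  exact lt_of_le_of_lt h1 h4

/-- **Planar families which exhaust the homology.** -/
theorem der_of_det {k : ℕ} {e : Fin k → Module.End ℂ (ℂ ⊗[ℚ] A.H1)} (hr : PD.Det A e)
    (hsum : ∑ i, e i = 1) (𝔮 : Submodule ℚ (Module.End ℚ A.H1)) (hq : A.Full 𝔮) :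
    der A.NA ≤ der 𝔮 := by
  intro X hX
  obtain ⟨y, hy, h1⟩ := hr.der 𝔮 hq X hX
  have h2 : X.baseChange ℂ = y := by
    have h3 : (∑ i, e i) * X.baseChange ℂ = (∑ i, e i) * y := by
      rw [Finset.sum_mul, Finset.sum_mul]
      exact Finset.sum_congr rfl fun i _ => h1 i
    rwa [hsum, one_mul, one_mul] at h3
  rw [← h2] at hy
  exact mem_of_bc hy

end Pool.Agent.U400.PN
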