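import Pool.Agent.U400.PN.Core

set_option autoImplicit false

/-!
# The sum of a motive generated by an abelian variety and an arbitrary motive: definitions
-/

open Module Matrix Pool.Agent.Y102 Pool.Agent.W516.DR Pool.Agent.H204R3.GP

noncomputable section

namespace Pool.Agent.U400.PN.Any

variable {g : ℕ} (A : AbVar g)

/-! ### The Lie algebra -/

/-- The multilinear forms in `2m` variables in the rational homology. -/
abbrev Form (m : ℕ) : Type := MultilinearMap ℚ (fun _ : Fin m × Fin 2 => A.H1) ℚ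

/-- `φ` is a de Rham-Betti class in `H^1(A) ^ {⊗ 2m} (m)`. -/
def IsDRB {m : ℕ} (φ : Form A m) : Prop :=
  IsDeRhamBettiForm QBar A.dR (2 * Real.pi * Complex.I) m φ

/-- `φ` is a Hodge class in `H^1(A) ^ {⊗ 2m} (m)`. -/
def IsHodge {m : ℕ} (φ : Form A m) : Prop := IsHodgeTensor (A.per : A.H1 →+ (Fin g → ℂ)) φ

/-- The endomorphism `X` annihilates the form `φ` (as a derivation). -/
def Annihilates {m : ℕ} (X : Module.End ℚ A.H1) (φ : Form A m) : Prop :=
  ∀ v, ∑ k, φ (Function.update v k (X (v k))) = 0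

/-- `X` is in the Lie algebra `𝔤`: it annihilates all classes that are Hodge classes and
de Rham-Betti classes. -/
def InLie (X : Module.End ℚ A.H1) : Prop :=
  ∀ (m : ℕ) (φ : Form A m), IsHodge A φ → IsDRB A φ → Annihilates A X φ

/-- The derived algebra `[𝔤, 𝔤]`. -/
def derivedLie : Submodule ℚ (Module.End ℚ A.H1) :=
  Submodule.span ℚ {Z | ∃ X, InLie A X ∧ ∃ Y, InLie A Y ∧ Z = X * Y - Y * X}

/-- The algebra of the endomorphisms of `H_1(A, ℂ)`, as matrices for the basis of the lattice. -/
def toC (X : Module.End ℚ A.H1) : Matrix (Fin (2 * g)) (Fin (2 * g)) ℂ :=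
  Matrix.of fun i j => (X (Pi.single j 1) i : ℂ)

variable {A} in
/-- The bracket `X Y - Y X` of endomorphisms. -/
def bracket (X Y : Module.End ℚ A.H1) : Module.End ℚ A.H1 := X * Y - Y * X

/-- `I` is an ideal of the Lie algebra `S`. -/
def IsIdealOf (I S : Submodule ℚ (Module.End ℚ A.H1)) : Prop :=
  I ≤ S ∧ ∀ X ∈ S, ∀ Y ∈ I, bracket X Y ∈ I

/-! ### Planes -/

/-- The matrix of the action of the endomorphism `X` of `H_1(A, ℚ)` on the direct summand of
`H_1(A, ℂ)` with the inclusion `P` and the projection `Q`. -/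
def onPlane (P : Matrix (Fin (2 * g)) (Fin 2) ℂ) (Q : Matrix (Fin 2) (Fin (2 * g)) ℂ)
    (X : Module.End ℚ A.H1) : Matrix (Fin 2) (Fin 2) ℂ := Q * toC A X * P

/-- **A plane**: a direct summand of dimension two of the `𝔤`-module `H_1(A, ℂ)` which is a simple
module; `P` is the inclusion and `Q` is the projection, so the projector `P * Q` commutes with `𝔤`. -/
structure IsPlane (P : Matrix (Fin (2 * g)) (Fin 2) ℂ) (Q : Matrix (Fin 2) (Fin (2 * g)) ℂ) :
    Prop where
  /-- `Q` is a projection to the summand -/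
  proj : Q * P = 1
  /-- the image of `P * Q` and its complement are stable under `𝔤` -/
  stable : ∀ X, InLie A X → P * Q * toC A X = toC A X * (P * Q)
  /-- there is no stable line -/
  simple : ∀ v : Fin 2 → ℂ, v ≠ 0 → ∃ X, InLie A X ∧ ∀ c : ℂ, onPlane A P Q X *ᵥ v ≠ c • v

section pairs

variable {k : ℕ} (P : Fin k → Matrix (Fin (2 * g)) (Fin 2) ℂ)
  (Q : Fin k → Matrix (Fin 2) (Fin (2 * g)) ℂ)

/-- Two planes have the same colour if `[𝔤, 𝔤]` acts on them by equivalent representations. -/
def SameColour (i j : Fin k) : Prop :=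
  ∃ Z : Matrix (Fin 2) (Fin 2) ℂ, Z.det ≠ 0 ∧ ∀ X ∈ derivedLie A,
    Z * onPlane A (P i) (Q i) X = onPlane A (P j) (Q j) X * Z

/-- Two planes are linked if there are two planes of the same colours on which all the elements of `𝔤`
have equal traces. -/
def Linked (i j : Fin k) : Prop :=
  ∃ i' j', SameColour A P Q i i' ∧ SameColour A P Q j j' ∧
    ∀ X, InLie A X → (onPlane A (P i') (Q i') X).trace = (onPlane A (P j') (Q j') X).trace

/-- The plane `i` is separated from the plane `j` if for some automorphism `s` of the field `ℂ` the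
conjugate with `s` of the `[𝔤, 𝔤]`-module `i` belongs to a real form `sl(2, ℝ)` of `sl(2)`, and the
conjugate of the module `j` belongs to the compact real form `su(2)`: the conjugates of the traces of
the squares are real numbers, for `i` sometimes positive, and for `j` never. -/
def Separated (i j : Fin k) : Prop :=
  ∃ s : ℂ ≃+* ℂ,
    (∀ X ∈ derivedLie A, ∃ ρ : ℝ, s ((onPlane A (P i) (Q i) X * onPlane A (P i) (Q i) X).trace) = ρ) ∧
    (∃ X ∈ derivedLie A, ∃ ρ : ℝ, 0 < ρ ∧
      s ((onPlane A (P i) (Q i) X * onPlane A (P i) (Q i) X).trace) = ρ) ∧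
    ∀ X ∈ derivedLie A, ∃ ρ : ℝ, ρ ≤ 0 ∧
      s ((onPlane A (P j) (Q j) X * onPlane A (P j) (Q j) X).trace) = ρ

/-- **The homology is a sum of planes**: every two of the planes have the same colour, or are linked,
or one of them is separated from the other; and `H_1(A, ℂ)` is their direct sum. -/
structure SumOfPlanes : Prop where
  /-- simple direct summands of dimension two -/
  plane : ∀ i, IsPlane A (P i) (Q i)
  /-- the condition on the pairs of planes -/
  pairs : ∀ i j, SameColour A P Q i j ∨ Linked A P Q i j ∨ Separated A P Q i j ∨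
    Separated A P Q j i
  /-- the homology is the sum of the planes -/
  sum : ∑ i, P i * Q i = 1

/-- The planes `W (c a)` have different colours. -/
def Distinct {e : ℕ} (c : Fin e → Fin k) : Prop :=
  ∀ a b, a ≠ b → ¬ SameColour A P Q (c a) (c b)

/-- **All simple factors of `[𝔤, 𝔤]` over `ℚ` have at least `e` colours**: for every ideal
`I ≠ [𝔤, 𝔤]` there are `e` planes of different colours on which `I` acts as zero. -/
def MinColours (e : ℕ) : Prop :=
  ∀ I, IsIdealOf A I (derivedLie A) → I ≠ derivedLie A →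
    ∃ c : Fin e → Fin k, Distinct A P Q c ∧ ∀ a, ∀ X ∈ I, onPlane A (P (c a)) (Q (c a)) X = 0

end pairs

/-! ### Motives -/

variable {s n : ℕ} (r : Fin s → ℕ) (w : Fin s → ℤ)

/-- The Betti realization of the sum of the motives `h^1(A) ^ {⊗ r i} (w i)`: families of multilinear
forms in `r i` variables in the rational homology. -/
abbrev Tensors : Type := ∀ i : Fin s, MultilinearMap ℚ (fun _ : Fin (r i) => A.H1) ℚ

variable {A r}

/-- `M` is the matrix of the action of the endomorphism `X` of the rational homology of `A` (as a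
derivation) on the space of tensors with the basis `B`. -/
def IsLieMatrix (B : Fin n → Tensors A r) (X : Module.End ℚ A.H1)
    (M : Matrix (Fin n) (Fin n) ℚ) : Prop :=
  ∀ a i v, ∑ k, B a i (Function.update v k (X (v k))) = ∑ b, M b a * B b i v

/-- The subspace with the basis `B` is the Betti realization of a direct factor `M` of the sum of the
motives `h^1(A) ^ {⊗ r i} (w i)`, and `P` is the matrix of the periods of `M` for the basis `B` and for
some basis of the de Rham realization of `M` over `ℚ̄`. -/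
structure IsMotive (B : Fin n → Tensors A r) (P : Matrix (Fin n) (Fin n) ℂ) : Prop where
  /-- `B` is a basis of a subspace -/
  basis : LinearIndependent ℚ B
  /-- the subspace is stable under `𝔤` -/
  lie : ∀ X, InLie A X → ∃ M : Matrix (Fin n) (Fin n) ℚ, IsLieMatrix B X M
  /-- the subspace is stable under the weights -/
  weight : ∃ M : Matrix (Fin n) (Fin n) ℚ, ∀ a i v,
    ((r i : ℚ) - 2 * w i) * B a i v = ∑ b, M b a * B b i v
  /-- the de Rham realization has a basis of elements with algebraic coefficients in terms of the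
  tensor products of the elements of the basis of `H^1_dR(A / ℚ̄)` -/
  deRham : ∃ c : Fin n → ∀ i : Fin s, (Fin (r i) → Fin g ⊕ Fin g) → ℂ,
    (∀ a i J, IsAlgebraic ℚ (c a i J)) ∧ ∀ a i (v : Fin (r i) → A.H1),
      ∑ J, c a i J * ∏ k, A.dR (J k) (v k) =
        (2 * Real.pi * Complex.I) ^ (w i) * ∑ b, P b a * (B b i v : ℂ)
  /-- the matrix of the periods is invertible -/
  det : P.det ≠ 0

/-- `N` is the matrix of the action on `M` of the multiplication with `i` on `H_1(A, ℝ) = ℂ ^ g` (as a
derivation): the generator of the Lie algebra of the circle in the Hodge structure of `M`. -/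
def IsComplexStructure (B : Fin n → Tensors A r) (N : Matrix (Fin n) (Fin n) ℝ) : Prop :=
  ∀ a i (j : Fin (r i) → Fin (2 * g)),
    ∑ k, ∑ l : Fin (2 * g), A.lam.repr (Complex.I • A.lam (j k)) l *
        (B a i (Function.update (fun p => Pi.single (j p) 1) k (Pi.single l 1)) : ℝ) =
      ∑ b, N b a * (B b i (fun p => Pi.single (j p) 1) : ℝ)

/-- The Lie algebra of the Hodge group of `M`: the smallest rational Lie algebra whose real span
contains the complex structure `N`. -/
def hodgeLie (N : Matrix (Fin n) (Fin n) ℝ) : Submodule ℚ (Matrix (Fin n) (Fin n) ℚ) :=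
  sInf {L | (∀ x ∈ L, ∀ y ∈ L, x * y - y * x ∈ L) ∧
    N ∈ Submodule.span ℝ {M | ∃ x ∈ L, M = x.map fun q => (q : ℝ)}}

/-- The derived algebra. -/
def derived (L : Submodule ℚ (Matrix (Fin n) (Fin n) ℚ)) :
    Submodule ℚ (Matrix (Fin n) (Fin n) ℚ) :=
  Submodule.span ℚ {z | ∃ x ∈ L, ∃ y ∈ L, z = x * y - y * x}

/-! ### Algebraic groups, and the two cases -/

/-- A subgroup of `GL_R(ℂ)` defined by polynomials with rational coefficients. -/
def IsAlgebraicSubgroup {R : Type} [Fintype R] [DecidableEq R] (G : Subgroup (GL R ℂ)) : Prop :=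
  ∃ I : Set (MvPolynomial (R × R) ℚ), ∀ x : GL R ℂ, x ∈ G ↔
    ∀ p ∈ I, MvPolynomial.aeval (fun b : R × R => (x : Matrix R R ℂ) b.1 b.2) p = 0

variable {d : ℕ}

/-- The direct sum of the period matrices `P` of `M` and `Ψ` of the other motive is a point of a torsor
of `G` over `ℚ̄`: its product with a matrix of algebraic numbers is in `G`. -/
def ContainsPeriods (P : Matrix (Fin n) (Fin n) ℂ) (Ψ : Matrix (Fin d) (Fin d) ℂ)
    (G : Subgroup (GL (Fin n ⊕ Fin d) ℂ)) : Prop :=
  ∃ T : Matrix (Fin n ⊕ Fin d) (Fin n ⊕ Fin d) ℂ, (∀ i j, IsAlgebraic ℚ (T i j)) ∧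
    ∃ x ∈ G, (x : Matrix (Fin n ⊕ Fin d) (Fin n ⊕ Fin d) ℂ) = Matrix.fromBlocks P 0 0 Ψ * T

/-- The pair `(X, K)` of rational matrices is in the Lie algebra of `G`: the matrices
`exp (t X) ⊕ exp (t K)` are in `G`. -/
def InLieOf (G : Subgroup (GL (Fin n ⊕ Fin d) ℂ)) (X : Matrix (Fin n) (Fin n) ℚ)
    (K : Matrix (Fin d) (Fin d) ℚ) : Prop :=
  ∀ t : ℂ, ∃ x ∈ G, (x : Matrix (Fin n ⊕ Fin d) (Fin n ⊕ Fin d) ℂ) =
    NormedSpace.exp (t • Matrix.fromBlocks (X.map fun q => (q : ℂ)) 0 0 (K.map fun q => (q : ℂ)))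

/-- **`M` splits off**: `G` contains the product of the derived group of the Mumford-Tate group of `M`
and of the trivial group. -/
def SplitsOff (N : Matrix (Fin n) (Fin n) ℝ) (G : Subgroup (GL (Fin n ⊕ Fin d) ℂ)) : Prop :=
  ∀ Z ∈ derived (hodgeLie N), InLieOf G Z 0

/-- The bracket `x y - y x` of matrices. -/
def mbracket (x y : Matrix (Fin d) (Fin d) ℚ) : Matrix (Fin d) (Fin d) ℚ := x * y - y * x

/-- The Lie algebra `S / I` is a quotient of the Lie algebra `𝔫` of matrices: the map
`x ↦ φ x` modulo `I` is a surjective homomorphism. -/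
def IsQuotient (𝔫 : Submodule ℚ (Matrix (Fin d) (Fin d) ℚ)) (S I : Submodule ℚ (Module.End ℚ A.H1)) :
    Prop :=
  ∃ φ : Matrix (Fin d) (Fin d) ℚ →ₗ[ℚ] Module.End ℚ A.H1, Submodule.map φ 𝔫 ⊔ I = S ∧
    ∀ x ∈ 𝔫, ∀ y ∈ 𝔫, φ (mbracket x y) - bracket (φ x) (φ y) ∈ I

/-- **A quotient of the Lie algebra `S` occurs in the other motive**: for some ideal `I ≠ S` the algebra
`S / I` is a quotient of a Lie algebra `𝔫` of rational matrices of size `d` and trace zero, which is
contained in the image of the Lie algebra of `G`. -/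
def Occurs (n : ℕ) (S : Submodule ℚ (Module.End ℚ A.H1)) (G : Subgroup (GL (Fin n ⊕ Fin d) ℂ)) :
    Prop :=
  ∃ I, IsIdealOf A I S ∧ I ≠ S ∧
    ∃ 𝔫 : Submodule ℚ (Matrix (Fin d) (Fin d) ℚ), (∀ x ∈ 𝔫, ∀ y ∈ 𝔫, mbracket x y ∈ 𝔫) ∧
      (∀ x ∈ 𝔫, x.trace = 0 ∧ ∃ X, InLieOf G X x) ∧ IsQuotient 𝔫 S I

end Pool.Agent.U400.PN.Any
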