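import Pool.Agent.U400.PN.Defs
import Pool.Agent.U400.PN.Colours

set_option autoImplicit false

/-!
# The sum of a motive generated by an abelian variety and an arbitrary motive: proof
-/

open Module Matrix TensorProduct Pool.Agent.Y102 Pool.Agent.W516.DR Pool.Agent.H204R3.GP

noncomputable section

namespace Pool.Agent.U400.PN.Any

variable {g s n d : ℕ} {A : AbVar g} {r : Fin s → ℕ} {w : Fin s → ℤ} {B : Fin n → Tensors A r}

theorem relL (X : Module.End ℚ A.H1) (M : Matrix (Fin n) (Fin n) ℚ) :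
    N208.AM.Rel B X M ↔ IsLieMatrix B X M := by
  constructor
  · intro h a i v
    have h1 := congrArg (fun φ : MultilinearMap ℚ (fun _ : Fin (r i) => A.H1) ℚ => φ v) (h a i)
    simp only [N208.AM.dact_apply, _root_.sum_apply, _root_.smul_apply, smul_eq_mul] at h1
    exact h1
  · intro h a i
    refine MultilinearMap.ext fun v => ?_
    rw [N208.AM.dact_apply, _root_.sum_apply, h a i v]
    rfl

theorem relR {N : Matrix (Fin n) (Fin n) ℝ} (hN : IsComplexStructure B N) :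
    N208.AM.RelR B AbVar.JJ N := by
  have hb : ∀ j : Fin (2 * g), A.bas j = Pi.single j 1 := fun j => by
    unfold AbVar.bas
    rw [Pi.basisFun_apply]
  intro a i
  refine Basis.ext_multilinear (fun _ => A.lam) fun j => ?_
  have h1 := hN a i j
  rw [N208.AM.dact_apply, _root_.sum_apply]
  have h2 : (fun p => A.lam (j p)) = fun p => A.per (Pi.single (j p) 1) := by
    funext p
    rw [← hb, A.per_bas]
  have h3 : ∀ b, (N b a • A.Phi (B b i)) (fun p => A.lam (j p)) =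
      N b a * (B b i (fun p => Pi.single (j p) 1) : ℝ) := fun b => by
    rw [_root_.smul_apply, smul_eq_mul, h2, A.Phi_per]
  rw [Finset.sum_congr rfl fun b _ => h3 b, ← h1]
  refine Finset.sum_congr rfl fun k _ => ?_
  rw [AbVar.JJ_apply, ← A.lam.sum_repr (Complex.I • A.lam (j k)), MultilinearMap.map_update_sum]
  simp only [A.lam.sum_repr]
  refine Finset.sum_congr rfl fun l _ => ?_
  rw [MultilinearMap.map_update_smul, smul_eq_mul]
  congr 1
  have h4 : A.lam l = A.per (Pi.single l 1) := by rw [← hb, A.per_bas]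
  rw [h2, h4, N208.AM.update_per, A.Phi_per]

theorem mot {P : Matrix (Fin n) (Fin n) ℂ} (hM : IsMotive w B P) :
    N208.AM.Mot w B P ∧ ∃ Wt, N208.AM.WRel w B Wt := by
  have hwt : ∃ M, N208.AM.WRel w B M := by
    obtain ⟨M, h⟩ := hM.weight
    refine ⟨M, fun a i => MultilinearMap.ext fun v => ?_⟩
    rw [_root_.smul_apply, _root_.sum_apply, smul_eq_mul, h a i v]
    rfl
  refine ⟨⟨hM.basis, fun X hX => ?_, hwt, hM.det, hM.deRham⟩, hwt⟩
  obtain ⟨M, h⟩ := hM.lie X hX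
  refine ⟨M, fun a i => MultilinearMap.ext fun v => ?_⟩
  rw [N208.AM.dact_apply, _root_.sum_apply, h a i v]
  rfl

/-- The derived algebra of the Lie algebra of the Hodge group of the motive. -/
theorem derived_le {P : Matrix (Fin n) (Fin n) ℂ} (h : N208.AM.Mot w B P)
    {N : Matrix (Fin n) (Fin n) ℝ} (hN : N208.AM.RelR B AbVar.JJ N)
    {Z : Matrix (Fin n) (Fin n) ℚ} (hZ : Z ∈ derived (hodgeLie N)) :
    ∃ X ∈ Pool.Agent.Y102.der A.NA, N208.AM.Rel B X Z := by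
  let L : Submodule ℚ (Matrix (Fin n) (Fin n) ℚ) :=
    { carrier := {M | ∃ X ∈ A.NA, N208.AM.Rel B X M}
      zero_mem' := ⟨0, A.NA.zero_mem, N208.AM.Rel.zero⟩
      add_mem' := by
        rintro _ _ ⟨X, hX, h1⟩ ⟨Y, hY, h2⟩
        exact ⟨X + Y, A.NA.add_mem hX hY, h1.add h2⟩
      smul_mem' := by
        rintro c _ ⟨X, hX, h1⟩
        exact ⟨c • X, A.NA.smul_mem c hX, h1.smul c⟩ }
  obtain ⟨N', hN', t, X, M, h1, h2⟩ := N208.AM.exists_J h
  have h3 : N = N' := hN.uniq h.li hN'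
  subst h3
  have h4 : hodgeLie N ≤ L := by
    refine sInf_le ⟨?_, ?_⟩
    · rintro _ ⟨X, hX, h1⟩ _ ⟨Y, hY, h2⟩
      exact ⟨Y * X - X * Y, A.NA_bracket hY hX, h2.br h1⟩
    · rw [h2]
      exact Submodule.sum_mem _ fun k _ => Submodule.smul_mem _ _
        (Submodule.subset_span ⟨M k, ⟨X k, (h1 k).1, (h1 k).2⟩, rfl⟩)
  unfold derived at hZ
  induction hZ using Submodule.span_induction with
  | mem Z hZ =>
    obtain ⟨x, hx, y, hy, rfl⟩ := hZ
    obtain ⟨X, hX, h5⟩ := h4 hx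
    obtain ⟨Y, hY, h6⟩ := h4 hy
    exact ⟨Y * X - X * Y, Submodule.subset_span ⟨Y, hY, X, hX, rfl⟩, h6.br h5⟩
  | zero => exact ⟨0, Submodule.zero_mem _, N208.AM.Rel.zero⟩
  | add a b _ _ ha hb =>
    obtain ⟨X, hX, h5⟩ := ha
    obtain ⟨Y, hY, h6⟩ := hb
    exact ⟨X + Y, Submodule.add_mem _ hX hY, h5.add h6⟩
  | smul c a _ ha =>
    obtain ⟨X, hX, h5⟩ := ha
    exact ⟨c • X, Submodule.smul_mem _ c hX, h5.smul c⟩

theorem ptN {P : Matrix (Fin n) (Fin n) ℂ} {Ψ : Matrix (Fin d) (Fin d) ℂ}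
    {G : Subgroup (GL (Fin n ⊕ Fin d) ℂ)} (hG : IsAlgebraicSubgroup G)
    (hP : ContainsPeriods P Ψ G) :
    PtN P Ψ {M | ∃ x ∈ G, (x : Matrix (Fin n ⊕ Fin d) (Fin n ⊕ Fin d) ℂ) = M} := by
  obtain ⟨T, hT, x, hx, hxT⟩ := hP
  have hdet : T.det ≠ 0 := by
    intro h0
    have h1 : (x : Matrix (Fin n ⊕ Fin d) (Fin n ⊕ Fin d) ℂ).det = 0 := by
      rw [hxT, Matrix.det_mul, h0, mul_zero]
    exact (Matrix.GeneralLinearGroup.det x).ne_zero h1
  obtain ⟨T', h1, h2⟩ := Pool.Agent.R917.OM.alg_inv' hT hdet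
  exact ⟨Pool.Agent.R917.algGrp_of hG, T, T', h1, h2, x, hx, hxT⟩

theorem inLieOf {G : Subgroup (GL (Fin n ⊕ Fin d) ℂ)} (hG : IsAlgebraicSubgroup G)
    {X : Matrix (Fin n) (Fin n) ℚ} {K : Matrix (Fin d) (Fin d) ℚ}
    (h : bl X K ∈ LR {M | ∃ x ∈ G, (x : Matrix (Fin n ⊕ Fin d) (Fin n ⊕ Fin d) ℂ) = M}) :
    InLieOf G X K := by
  intro t
  have h1 : qm (bl X K) = Matrix.fromBlocks (X.map fun q => (q : ℂ)) 0 0
      (K.map fun q => (q : ℂ)) := by
    unfold qm bl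
    rw [Matrix.fromBlocks_map]
    congr 1
    · ext i j
      simp
    · ext i j
      simp
  have h2 := Pool.Agent.R917.exp_mem (Pool.Agent.R917.algGrp_of hG) fun k => (h k).smul t
  rw [h1] at h2
  exact h2

/-- **Main theorem.** -/
theorem main {k : ℕ} {PW : Fin k → Matrix (Fin (2 * g)) (Fin 2) ℂ}
    {QW : Fin k → Matrix (Fin 2) (Fin (2 * g)) ℂ} (hA : SumOfPlanes A PW QW)
    {P : Matrix (Fin n) (Fin n) ℂ} (hM : IsMotive w B P)
    {N : Matrix (Fin n) (Fin n) ℝ} (hN : IsComplexStructure B N) {Ψ : Matrix (Fin d) (Fin d) ℂ}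
    (hΨ : Ψ.det ≠ 0) {G : Subgroup (GL (Fin n ⊕ Fin d) ℂ)} (hG : IsAlgebraicSubgroup G)
    (hP : ContainsPeriods P Ψ G) :
    (SplitsOff N G ∨ Occurs n (derivedLie A) G) ∧
      ∀ e : ℕ, MinColours A PW QW e → d < 2 * e → SplitsOff N G := by
  obtain ⟨hM', Wt, hW⟩ := mot hM
  have hH := ptN hG hP
  have hNR := relR hN
  have hdl : derivedLie A = Pool.Agent.Y102.der A.NA := by
    unfold derivedLie Pool.Agent.Y102.der
    congr 1
  have hpl : ∀ i, U400.PD.Planar A (PW i) (QW i) := fun i =>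
    ⟨(hA.plane i).proj, (hA.plane i).stable, (hA.plane i).simple⟩
  have hpr : U400.PD.Pairs A PW QW := fun i j => hA.pairs i j
  have hdet := U400.PD.det_of (A := A) (P := PW) (Q := QW) hpl hpr
  have hsum : ∑ i, matE (2 * g) (PW i * QW i) = 1 := by
    rw [← map_sum, hA.sum, map_one]
  have hder := der_of_det hdet hsum
  let H : Set (Matrix (Fin n ⊕ Fin d) (Fin n ⊕ Fin d) ℂ) :=
    {M | ∃ x ∈ G, (x : Matrix (Fin n ⊕ Fin d) (Fin n ⊕ Fin d) ℂ) = M}
  have hid : IsIdealOf A (KI B Wt H) (derivedLie A) := by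
    rw [hdl]
    exact ⟨KI_le, fun X hX Y hY => KI_ideal hM' hW hΨ hH hder X hX Y hY⟩
  by_cases h1 : KI B Wt H = derivedLie A
  · have hsplit : SplitsOff N G := by
      intro Z hZ
      obtain ⟨X, hX, hXZ⟩ := derived_le hM' hNR hZ
      have h2 : X ∈ KI B Wt H := by rwa [h1, hdl]
      obtain ⟨M, hM1, hM2⟩ := dd_LR hM' hW (mem_KI.1 h2)
      rw [hM1.uniq hM'.li hXZ] at hM2
      exact inLieOf hG hM2
    exact ⟨Or.inl hsplit, fun _ _ _ => hsplit⟩
  · obtain ⟨𝔫, h2, h3, h4, φ, h5, h6⟩ := quot' hM' hW hΨ hH hder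
    refine ⟨Or.inr ⟨KI B Wt H, hid, h1, 𝔫, h2, fun x hx => ⟨h3 x hx, ?_⟩, φ, ?_, h6⟩,
      fun e he hd => ?_⟩
    · obtain ⟨M, hM1⟩ := h4 x hx
      exact ⟨M, inLieOf hG hM1⟩
    · rw [hdl]
      exact h5
    · obtain ⟨c, hc, h7⟩ := he _ hid h1
      have hc' : ∀ a b, a ≠ b → ¬ U400.PD.SameC A PW QW (c a) (c b) := by
        intro a b hab h8
        refine hc a b hab ?_
        obtain ⟨Z, hZ, h9⟩ := h8
        exact ⟨Z, hZ, fun X hX => h9 X (by rwa [hdl] at hX)⟩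
      have h8 := colours_le hM' hW hΨ hH hpl hpr c hc' fun a X hX => by
        rw [U400.PD.cor_bc]
        exact h7 a X hX
      exact absurd h8 (not_le.2 hd)

end Pool.Agent.U400.PN.Any
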