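import Pool.Agent.U400.PN.Sl2

set_option autoImplicit false

/-!
# The rank of a Lie algebra of matrices with a quotient `sl_2 ^ e`
-/

open Module LieModule

attribute [local instance 100] LieRing.ofAssociativeRing

noncomputable section

namespace Pool.Agent.U400.PN

variable {L T : Type} [LieRing L] [LieAlgebra ℂ L] [FiniteDimensional ℂ L] [LieRing T]
  [LieAlgebra ℂ T] {ι : Type}

/-- The Lie algebra `T` is a product of copies of `sl_2`. -/
structure Fam (h e f : ι → T) : Prop where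
  he : ∀ i, ⁅h i, e i⁆ = 2 • e i
  hf : ∀ i, ⁅h i, f i⁆ = -(2 • f i)
  ef : ∀ i, ⁅e i, f i⁆ = h i
  ne : ∀ i, e i ≠ 0
  comm : ∀ i j, i ≠ j → ⁅h i, e j⁆ = 0 ∧ ⁅e i, e j⁆ = 0 ∧ ⁅f i, e j⁆ = 0
  ideal : ∀ (i : ι) (t a : T), (a = h i ∨ a = e i ∨ a = f i) →
    ∃ p q s : ℂ, ⁅t, a⁆ = p • h i + q • e i + s • f i
  perf : Submodule.span ℂ {t : T | ∃ a b : T, t = ⁅a, b⁆} = ⊤

section modules

variable {W : Type} [AddCommGroup W] [Module ℂ W] [LieRingModule L W] [LieModule ℂ L W]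
  [FiniteDimensional ℂ W] (φ : L →ₗ⁅ℂ⁆ T)

/-- Engel's theorem: the kernel acts trivially on simple modules. -/
theorem ker_triv [Nontrivial W] (hirr : ∀ N : LieSubmodule ℂ L W, N = ⊥ ∨ N = ⊤)
    (hK : ∀ y, φ y = 0 → IsNilpotent (toEnd ℂ L W y)) (y : L) (hy : φ y = 0) (w : W) :
    ⁅y, w⁆ = 0 := by
  let K : LieSubalgebra ℂ L :=
    { carrier := {y | φ y = 0}
      zero_mem' := map_zero φ
      add_mem' := fun {a b} ha hb => by
        change φ (a + b) = 0
        rw [map_add, show φ a = 0 from ha, show φ b = 0 from hb, add_zero]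
      smul_mem' := fun c a ha => by
        change φ (c • a) = 0
        rw [map_smul, show φ a = 0 from ha, smul_zero]
      lie_mem' := fun {a b} ha _ => by
        change φ ⁅a, b⁆ = 0
        rw [LieHom.map_lie, show φ a = 0 from ha, zero_lie] }
  have h1 : LieModule.IsNilpotent K W :=
    (LieModule.isNilpotent_iff_forall (R := ℂ) (L := K) (M := W)).2 fun y => hK y y.2
  have h2 : Nontrivial (maxTrivSubmodule ℂ K W) := nontrivial_max_triv_of_isNilpotent ℂ K W
  obtain ⟨⟨w0, hw0⟩, hne⟩ := exists_ne (0 : maxTrivSubmodule ℂ K W)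
  let N : LieSubmodule ℂ L W :=
    { carrier := {w | ∀ y, φ y = 0 → ⁅y, w⁆ = 0}
      zero_mem' := fun y _ => lie_zero y
      add_mem' := fun {a b} ha hb y hy => by rw [lie_add, ha y hy, hb y hy, add_zero]
      smul_mem' := fun c a ha y hy => by rw [lie_smul, ha y hy, smul_zero]
      lie_mem := fun {z a} ha y hy => by
        rw [leibniz_lie, ha y hy, lie_zero, add_zero]
        exact ha _ (by rw [LieHom.map_lie, hy, zero_lie]) }
  have h3 : N ≠ ⊥ := by
    intro h4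
    have h5 : w0 ∈ N := fun y hy => hw0 ⟨y, hy⟩
    rw [h4, LieSubmodule.mem_bot] at h5
    exact hne (Subtype.ext h5)
  have h4 : w ∈ N := by
    rw [(hirr N).resolve_left h3]
    trivial
  exact h4 y hy

theorem two_mul_le_pow (n : ℕ) : 2 * n ≤ 2 ^ n := by
  induction n with
  | zero => simp
  | succ n ih =>
    rcases Nat.eq_zero_or_pos n with rfl | hn
    · simp
    · rw [pow_succ]
      omega

variable {φ} [Fintype ι] [DecidableEq ι]

open Classical in
/-- Simple modules. -/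
theorem irr_bound [Nontrivial W] (hirr : ∀ N : LieSubmodule ℂ L W, N = ⊥ ∨ N = ⊤)
    (hK : ∀ y, φ y = 0 → IsNilpotent (toEnd ℂ L W y)) {h e f : ι → T} (hF : Fam h e f)
    {x y z : ι → L} (hx : ∀ i, φ (x i) = h i) (hy : ∀ i, φ (y i) = e i) (hz : ∀ i, φ (z i) = f i) :
    2 * (Finset.univ.filter fun i => ¬ IsNilpotent (toEnd ℂ L W (x i))).card ≤ finrank ℂ W := by
  have hk := ker_triv φ hirr hK
  have key : ∀ a b : L, φ a = φ b → toEnd ℂ L W a = toEnd ℂ L W b := by
    intro a b hab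
    refine LinearMap.ext fun w => ?_
    have h1 := hk (a - b) (by rw [map_sub, hab, sub_self]) w
    rw [sub_lie, sub_eq_zero] at h1
    exact h1
  have hbr : ∀ a b : L, toEnd ℂ L W a * toEnd ℂ L W b - toEnd ℂ L W b * toEnd ℂ L W a =
      toEnd ℂ L W ⁅a, b⁆ := by
    intro a b
    rw [LieHom.map_lie, Ring.lie_def]
  have hco : ∀ a b : L, ⁅φ a, φ b⁆ = 0 → toEnd ℂ L W a * toEnd ℂ L W b =
      toEnd ℂ L W b * toEnd ℂ L W a := by
    intro a b hab
    rw [← sub_eq_zero, hbr, key ⁅a, b⁆ 0 (by rw [LieHom.map_lie, hab, map_zero]), map_zero]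
  have htri : ∀ i, Tri (toEnd ℂ L W (x i)) (toEnd ℂ L W (y i)) (toEnd ℂ L W (z i)) := by
    intro i
    refine ⟨?_, ?_, ?_⟩
    · rw [hbr, ← map_nsmul]
      exact key _ _ (by rw [LieHom.map_lie, hx, hy, hF.he, map_nsmul, hy])
    · rw [hbr, ← map_nsmul, ← map_neg]
      exact key _ _ (by rw [LieHom.map_lie, hx, hz, hF.hf, map_neg, map_nsmul, hz])
    · rw [hbr]
      exact key _ _ (by rw [LieHom.map_lie, hy, hz, hF.ef, hx])
  have hinv : ∀ i, ¬ IsNilpotent (toEnd ℂ L W (x i)) →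
      NoInv (toEnd ℂ L W (x i)) (toEnd ℂ L W (y i)) (toEnd ℂ L W (z i)) := by
    intro i hi
    have hst : ∀ (t a : L) (w : W), (φ a = h i ∨ φ a = e i ∨ φ a = f i) → ⁅a, w⁆ = 0 →
        ⁅x i, w⁆ = 0 → ⁅y i, w⁆ = 0 → ⁅z i, w⁆ = 0 → ⁅a, ⁅t, w⁆⁆ = 0 := by
      intro t a w ha h0 h1 h2 h3
      obtain ⟨p, q, s, hpq⟩ := hF.ideal i (φ t) (φ a) ha
      have h4 : toEnd ℂ L W ⁅t, a⁆ = toEnd ℂ L W (p • x i + q • y i + s • z i) :=
        key _ _ (by
          rw [LieHom.map_lie, hpq, map_add, map_add, map_smul, map_smul, map_smul, hx, hy, hz])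
      have h5 : ⁅⁅t, a⁆, w⁆ = 0 := by
        have h6 := LinearMap.congr_fun h4 w
        rw [toEnd_apply_apply, toEnd_apply_apply, add_lie, add_lie, smul_lie, smul_lie, smul_lie,
          h1, h2, h3, smul_zero, smul_zero, smul_zero, add_zero, add_zero] at h6
        exact h6
      have h6 : ⁅a, ⁅t, w⁆⁆ = ⁅t, ⁅a, w⁆⁆ - ⁅⁅t, a⁆, w⁆ := by
        rw [lie_lie]
        abel
      rw [h6, h0, h5, lie_zero, sub_zero]
    let N : LieSubmodule ℂ L W :=
      { carrier := {w | ⁅x i, w⁆ = 0 ∧ ⁅y i, w⁆ = 0 ∧ ⁅z i, w⁆ = 0}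
        zero_mem' := ⟨lie_zero _, lie_zero _, lie_zero _⟩
        add_mem' := fun {a b} ha hb => ⟨by rw [lie_add, ha.1, hb.1, add_zero],
          by rw [lie_add, ha.2.1, hb.2.1, add_zero], by rw [lie_add, ha.2.2, hb.2.2, add_zero]⟩
        smul_mem' := fun c a ha => ⟨by rw [lie_smul, ha.1, smul_zero],
          by rw [lie_smul, ha.2.1, smul_zero], by rw [lie_smul, ha.2.2, smul_zero]⟩
        lie_mem := fun {t w} hw =>
          ⟨hst t _ w (Or.inl (hx i)) hw.1 hw.1 hw.2.1 hw.2.2,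
            hst t _ w (Or.inr (Or.inl (hy i))) hw.2.1 hw.1 hw.2.1 hw.2.2,
            hst t _ w (Or.inr (Or.inr (hz i))) hw.2.2 hw.1 hw.2.1 hw.2.2⟩ }
    rcases hirr N with hN | hN
    · intro v h1 h2 h3
      have h4 : v ∈ N := ⟨h1, h2, h3⟩
      rw [hN, LieSubmodule.mem_bot] at h4
      exact h4
    · refine absurd ?_ hi
      have h1 : toEnd ℂ L W (x i) = 0 := by
        refine LinearMap.ext fun w => ?_
        have h2 : w ∈ N := by
          rw [hN]
          trivial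
        exact h2.1
      rw [h1]
      exact IsNilpotent.zero
  have h1 := pow_le (h := fun i => toEnd ℂ L W (x i)) (e := fun i => toEnd ℂ L W (y i))
    (f := fun i => toEnd ℂ L W (z i))
    (Finset.univ.filter fun i => ¬ IsNilpotent (toEnd ℂ L W (x i))) (fun j _ => htri j)
    (fun j hj => hinv j (Finset.mem_filter.1 hj).2) (fun i j hij => by
      obtain ⟨c1, c2, c3⟩ := hF.comm i j hij
      exact ⟨hco _ _ (by rw [hx, hy, c1]), hco _ _ (by rw [hy, hy, c2]),
        hco _ _ (by rw [hz, hy, c3])⟩) ⊤ top_ne_bot (fun j _ v _ => ⟨trivial, trivial, trivial⟩)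
  rw [finrank_top] at h1
  exact (two_mul_le_pow _).trans h1

end modules

end Pool.Agent.U400.PN
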