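import Mathlib

set_option autoImplicit false

/-!
# Commuting triples
-/

open Module

attribute [local instance 100] LieRing.ofAssociativeRing

noncomputable section

namespace Pool.Agent.U400.PN

variable {W : Type} [AddCommGroup W] [Module ℂ W] [FiniteDimensional ℂ W]

/-- The relations of a triple. -/
structure Tri (h e f : Module.End ℂ W) : Prop where
  he : h * e - e * h = 2 • e
  hf : h * f - f * h = -(2 • f)
  ef : e * f - f * e = h

/-- The invariants are zero. -/
def NoInv (h e f : Module.End ℂ W) : Prop := ∀ v, h v = 0 → e v = 0 → f v = 0 → v = 0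

theorem Tri.low {h e f : Module.End ℂ W} (t : Tri h e f) {v : W} (h1 : h v = 0) (h2 : e v = 0) :
    f v = 0 := by
  by_contra hne
  have hh : h ≠ 0 := by
    intro h0
    have h3 := t.hf
    rw [h0, zero_mul, mul_zero, sub_zero] at h3
    have h4 : f = 0 := by
      have h5 : (2 : ℕ) • f = 0 := neg_eq_zero.1 h3.symm
      rw [two_nsmul, ← two_smul ℂ] at h5
      exact (smul_eq_zero.1 h5).resolve_left two_ne_zero
    rw [h4] at hne
    exact hne rfl
  have T : IsSl2Triple h e f :=
    ⟨hh, by rw [Ring.lie_def]; exact t.ef, by rw [Ring.lie_def]; exact t.he,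
      by rw [Ring.lie_def]; exact t.hf⟩
  have h3 : h (f v) = (-2 : ℂ) • f v := by
    have h4 := LinearMap.congr_fun t.hf v
    simp only [LinearMap.sub_apply, Module.End.mul_apply, LinearMap.neg_apply,
      LinearMap.smul_apply, h1, map_zero, sub_zero] at h4
    rw [h4, neg_smul, two_smul, two_smul]
  have h4 : e (f v) = 0 := by
    have h5 := LinearMap.congr_fun t.ef v
    simp only [LinearMap.sub_apply, Module.End.mul_apply, h1, h2, map_zero, sub_zero] at h5
    exact h5
  have P : IsSl2Triple.HasPrimitiveVectorWith T (f v) (-2 : ℂ) := ⟨hne, h3, h4⟩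
  obtain ⟨n, hn⟩ := P.exists_nat
  have h6 := congrArg Complex.re hn
  simp only [Complex.neg_re, Complex.re_ofNat, Complex.natCast_re] at h6
  have h7 : (0 : ℝ) ≤ n := Nat.cast_nonneg n
  linarith

/-- The dimension of the kernel of `e` is at most one half. -/
theorem Tri.half {h e f : Module.End ℂ W} (t : Tri h e f) (hn : NoInv h e f)
    {U : Submodule ℂ W} (hf : ∀ v ∈ U, f v ∈ U) :
    2 * finrank ℂ ↥(U ⊓ LinearMap.ker e) ≤ finrank ℂ U := by
  set U' : Submodule ℂ W := U ⊓ LinearMap.ker e with hU'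
  have hinj : Function.Injective (f.domRestrict U') := by
    rw [← LinearMap.ker_eq_bot, LinearMap.ker_eq_bot']
    rintro ⟨v, hv⟩ h1
    have h1' : f v = 0 := h1
    have h2 : e v = 0 := hv.2
    have h3 : h v = 0 := by
      have h5 := LinearMap.congr_fun t.ef v
      simp only [LinearMap.sub_apply, Module.End.mul_apply, h1', h2, map_zero, sub_zero] at h5
      exact h5.symm
    exact Subtype.ext (hn v h3 h2 h1')
  have h1 : finrank ℂ ↥(LinearMap.range (f.domRestrict U')) = finrank ℂ U' :=
    LinearMap.finrank_range_of_inj hinj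
  have h2 : U' ⊓ LinearMap.range (f.domRestrict U') = ⊥ := by
    rw [eq_bot_iff]
    rintro _ ⟨h3, ⟨⟨v, hv⟩, rfl⟩⟩
    have h4 : e (f v) = 0 := h3.2
    have h5 : e v = 0 := hv.2
    have h6 : h v = 0 := by
      have h7 := LinearMap.congr_fun t.ef v
      simp only [LinearMap.sub_apply, Module.End.mul_apply, h4, h5, map_zero, sub_zero] at h7
      exact h7.symm
    exact t.low h6 h5
  have h3 : U' ⊔ LinearMap.range (f.domRestrict U') ≤ U := by
    refine sup_le inf_le_left ?_
    rintro _ ⟨⟨v, hv⟩, rfl⟩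
    exact hf v hv.1
  have h4 := Submodule.finrank_sup_add_finrank_inf_eq U' (LinearMap.range (f.domRestrict U'))
  rw [h2, finrank_bot, add_zero, h1] at h4
  have h5 := Submodule.finrank_mono h3
  omega

/-- The kernel of `e` is not zero. -/
theorem Tri.top {h e f : Module.End ℂ W} (t : Tri h e f) {U : Submodule ℂ W} (hU : U ≠ ⊥)
    (hh : ∀ v ∈ U, h v ∈ U) (he : ∀ v ∈ U, e v ∈ U) : U ⊓ LinearMap.ker e ≠ ⊥ := by
  intro hbot
  have hnt : Nontrivial U := Submodule.nontrivial_iff_ne_bot.2 hU
  obtain ⟨μ, hμ⟩ := Module.End.exists_eigenvalue (h.restrict hh)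
  obtain ⟨u, hu⟩ := hμ.exists_hasEigenvector
  have h1 : h u = μ • (u : W) := congrArg Subtype.val hu.apply_eq_smul
  have h2 : (u : W) ≠ 0 := fun h0 => hu.2 (Subtype.ext h0)
  have key : ∀ n : ℕ, (e ^ n) u ∈ U ∧ (e ^ n) u ≠ 0 ∧ h ((e ^ n) u) = (μ + 2 * n) • (e ^ n) u := by
    intro n
    induction n with
    | zero => exact ⟨u.2, h2, by simpa using h1⟩
    | succ n ih =>
      obtain ⟨h3, h4, h5⟩ := ih
      rw [pow_succ', Module.End.mul_apply]
      refine ⟨he _ h3, fun h0 => h4 ?_, ?_⟩
      · have h6 : (e ^ n) u ∈ U ⊓ LinearMap.ker e := ⟨h3, h0⟩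
        rw [hbot] at h6
        exact h6
      · have h6 := LinearMap.congr_fun t.he ((e ^ n) u)
        simp only [LinearMap.sub_apply, Module.End.mul_apply, LinearMap.smul_apply, h5,
          map_smul] at h6
        rw [eq_add_of_sub_eq h6, two_smul, ← two_smul ℂ, ← add_smul]
        congr 1
        push_cast
        ring
  have h3 : Set.InjOn (fun n : ℕ => μ + 2 * (n : ℂ)) Set.univ := by
    intro a _ b _ hab
    have h4 : (2 : ℂ) * a = 2 * b := add_left_cancel hab
    exact_mod_cast mul_left_cancel₀ two_ne_zero h4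
  have h4 : (Set.univ : Set ℕ).Infinite := Set.infinite_univ
  have h5 := h4.image h3
  refine h5 ((Module.End.finite_hasEigenvalue (f := h)).subset ?_)
  rintro _ ⟨n, -, rfl⟩
  exact Module.End.hasEigenvalue_of_hasEigenvector
    ⟨Module.End.mem_eigenspace_iff.2 (key n).2.2, (key n).2.1⟩

/-- **Commuting triples without invariants.** -/
theorem pow_le {ι : Type} [DecidableEq ι] {h e f : ι → Module.End ℂ W}
    (J : Finset ι) (t : ∀ j ∈ J, Tri (h j) (e j) (f j)) (hn : ∀ j ∈ J, NoInv (h j) (e j) (f j))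
    (hc : ∀ i j, i ≠ j → h i * e j = e j * h i ∧ e i * e j = e j * e i ∧ f i * e j = e j * f i)
    (U : Submodule ℂ W) (hU : U ≠ ⊥)
    (hs : ∀ j ∈ J, ∀ v ∈ U, h j v ∈ U ∧ e j v ∈ U ∧ f j v ∈ U) : 2 ^ J.card ≤ finrank ℂ U := by
  induction J using Finset.induction_on generalizing U with
  | empty =>
    rw [Finset.card_empty, pow_zero]
    exact Nat.one_le_iff_ne_zero.2 fun h0 => hU (Submodule.finrank_eq_zero.1 h0)
  | insert i J hi ih =>
    have hi' := Finset.mem_insert_self i J
    have h1 := (t i hi').half (hn i hi') (U := U) fun v hv => (hs i hi' v hv).2.2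
    have h2 := ih (fun j hj => t j (Finset.mem_insert_of_mem hj))
      (fun j hj => hn j (Finset.mem_insert_of_mem hj)) (U ⊓ LinearMap.ker (e i))
      ((t i hi').top hU (fun v hv => (hs i hi' v hv).1) fun v hv => (hs i hi' v hv).2.1) ?_
    · rw [Finset.card_insert_of_notMem hi, pow_succ]
      omega
    · rintro j hj v ⟨hv, hv'⟩
      have hij : j ≠ i := fun h0 => hi (h0 ▸ hj)
      have h3 := hs j (Finset.mem_insert_of_mem hj) v hv
      obtain ⟨c1, c2, c3⟩ := hc j i hij
      have hv0 : e i v = 0 := hv'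
      refine ⟨⟨h3.1, ?_⟩, ⟨h3.2.1, ?_⟩, ⟨h3.2.2, ?_⟩⟩
      · change e i _ = 0
        have h4 := LinearMap.congr_fun c1 v
        simp only [Module.End.mul_apply, hv0, map_zero] at h4
        exact h4.symm
      · change e i _ = 0
        have h4 := LinearMap.congr_fun c2 v
        simp only [Module.End.mul_apply, hv0, map_zero] at h4
        exact h4.symm
      · change e i _ = 0
        have h4 := LinearMap.congr_fun c3 v
        simp only [Module.End.mul_apply, hv0, map_zero] at h4
        exact h4.symm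

end Pool.Agent.U400.PN
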